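import Pool.Agent.Y424.LK.Trace

/-!
# The set of distances of a finite set
-/

set_option autoImplicit false

namespace Run7.h64.SS

open Finset Pool.Agent.TH138.NF Pool.Agent.Y424.LK

/-- the distances of the points of `A` -/
def LL (A : Finset ℕ) : Finset ℕ := A.offDiag.image fun p => hh p.1 p.2

theorem mem_LL {A : Finset ℕ} {d : ℕ} : d ∈ LL A ↔ ∃ p ∈ A, ∃ q ∈ A, p ≠ q ∧ hh p q = d := by
  unfold LL
  simp only [mem_image, mem_offDiag, Prod.exists]
  constructor
  · rintro ⟨p, q, ⟨hp, hq, hpq⟩, h⟩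
    exact ⟨p, hp, q, hq, hpq, h⟩
  · rintro ⟨p, hp, q, hq, hpq, h⟩
    exact ⟨p, q, ⟨hp, hq, hpq⟩, h⟩

theorem hd_mem_D {n : ℕ} {X : Fin (n + 1) → ℕ} (hX : StrictMono X) :
    ∀ j : Fin (n + 1), ∀ i < j, ∃ k, hd (X i) (X j) = D X k := by
  intro j
  induction j using Fin.induction with
  | zero =>
    intro i hi
    exact absurd hi (Fin.not_lt_zero i)
  | succ j ih =>
    intro i hi
    rcases (Fin.le_castSucc_iff.2 hi).lt_or_eq with h | h
    · obtain ⟨k, hk⟩ := ih i h
      have h1 := hd_max (hX h) (hX (Fin.castSucc_lt_succ (i := j)))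
      rw [h1]
      rcases max_choice (hd (X i) (X j.castSucc)) (hd (X j.castSucc) (X j.succ)) with e | e
      · exact ⟨k, by rw [e, hk]⟩
      · exact ⟨j, by rw [e]; rfl⟩
    · exact ⟨j, by rw [h]; rfl⟩

theorem image_D {n : ℕ} {X : Fin (n + 1) → ℕ} (hX : StrictMono X) :
    univ.image (D X) = LL (univ.image X) := by
  ext d
  rw [mem_LL]
  constructor
  · intro h
    obtain ⟨k, -, rfl⟩ := mem_image.1 h
    exact ⟨X k.castSucc, mem_image_of_mem _ (mem_univ _), X k.succ, mem_image_of_mem _ (mem_univ _),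
      (hX (Fin.castSucc_lt_succ)).ne, hh_lt (hX (Fin.castSucc_lt_succ))⟩
  · rintro ⟨p, hp, q, hq, hpq, rfl⟩
    obtain ⟨i, -, rfl⟩ := mem_image.1 hp
    obtain ⟨j, -, rfl⟩ := mem_image.1 hq
    rcases lt_trichotomy i j with h | h | h
    · obtain ⟨k, hk⟩ := hd_mem_D hX j i h
      rw [hh_lt (hX h), hk]
      exact mem_image_of_mem _ (mem_univ _)
    · exact absurd (by rw [h]) hpq
    · obtain ⟨k, hk⟩ := hd_mem_D hX i j h
      rw [hh_gt (hX h), hk]
      exact mem_image_of_mem _ (mem_univ _)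

theorem LL_card {n : ℕ} {A : Finset ℕ} (h : A.card = n + 1) : (LL A).card ≤ n := by
  rw [← srt_image h, ← image_D (srt_mono h)]
  refine card_image_le.trans ?_
  rw [card_univ, Fintype.card_fin]

/-- `g` is a nearest point of `S` to `x` -/
def Near (S : Finset ℕ) (x g : ℕ) : Prop := g ∈ S ∧ ∀ z ∈ S, hh z x = max (hh g x) (hh z g)

theorem LL_insert {S : Finset ℕ} {x g : ℕ} (hx : x ∉ S) (hg : Near S x g) :
    LL (insert x S) = insert (hh g x) (LL S) := by
  ext d
  rw [mem_insert, mem_LL, mem_LL]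
  have key : ∀ z ∈ S, hh z x = hh g x ∨ ∃ p ∈ S, ∃ q ∈ S, p ≠ q ∧ hh p q = hh z x := by
    intro z hz
    by_cases hzg : z = g
    · left
      rw [hzg]
    · have h1 := hg.2 z hz
      rcases max_choice (hh g x) (hh z g) with e | e
      · left
        rw [h1, e]
      · right
        exact ⟨z, hz, g, hg.1, hzg, by rw [h1, e]⟩
  constructor
  · rintro ⟨p, hp, q, hq, hpq, rfl⟩
    rcases mem_insert.1 hp with rfl | hp' <;> rcases mem_insert.1 hq with rfl | hq'
    · exact absurd rfl hpq
    · rw [hh_comm]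
      exact key q hq'
    · exact key p hp'
    · right
      exact ⟨p, hp', q, hq', hpq, rfl⟩
  · rintro (rfl | ⟨p, hp, q, hq, hpq, rfl⟩)
    · refine ⟨g, mem_insert_of_mem hg.1, x, mem_insert_self _ _, ?_, rfl⟩
      rintro rfl
      exact hx hg.1
    · exact ⟨p, mem_insert_of_mem hp, q, mem_insert_of_mem hq, hpq, rfl⟩

theorem near_insert_lt {S : Finset ℕ} {x y g : ℕ} (hg : Near S y g) (h : hh x y < hh g y) :
    Near (insert x S) y x := by
  refine ⟨mem_insert_self _ _, ?_⟩
  intro z hz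
  rcases mem_insert.1 hz with rfl | hz
  · rw [hh_self, max_eq_left (Nat.zero_le _)]
  · have h1 : hh g y ≤ hh z y := by
      rw [hg.2 z hz]
      exact le_max_left _ _
    have h2 := ultra z x y
    have h3 := ultra z y x
    rw [hh_comm y x] at h3
    have h4 : hh z y ≤ hh z x := by
      rcases max_choice (hh z x) (hh x y) with e | e
      · rwa [e] at h2
      · rw [e] at h2
        omega
    have h5 : hh z x ≤ hh z y := by
      rcases max_choice (hh z y) (hh x y) with e | e
      · rwa [e] at h3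
      · rw [e] at h3
        omega
    rw [le_antisymm h4 h5]
    symm
    apply max_eq_right
    omega

theorem near_insert_ge {S : Finset ℕ} {x y g : ℕ} (hg : Near S y g) (h : hh g y ≤ hh x y) :
    Near (insert x S) y g := by
  refine ⟨mem_insert_of_mem hg.1, ?_⟩
  intro z hz
  rcases mem_insert.1 hz with rfl | hz
  · have h2 := ultra z g y
    have h3 := ultra z y g
    rw [hh_comm y g] at h3
    have h4 : hh z g ≤ hh z y := by
      rw [max_eq_left h] at h3
      exact h3
    apply le_antisymm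
    · rw [max_comm]
      exact h2
    · exact max_le h h4
  · exact hg.2 z hz

/-- dyadic intervals -/
def wz (z x : ℕ) : ℕ := x / 2 ^ hh x z * 2 ^ hh x z

theorem div_eq_of_hd_lt {x y d : ℕ} (h : x < y) (hd' : hd x y < d) : x / 2 ^ d = y / 2 ^ d := by
  by_contra hcon
  have := (hd_spec h d).2 hcon
  omega

theorem wz_lt {x y z : ℕ} (hxy : x < y) :
    hh x y < hh x z ↔ ¬ wz z x < wz z y := by
  have hh1 : hh x y = hd x y := hh_lt hxy
  constructor
  · intro h
    have h1 : hh y z = hh x z := by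
      have h2 := ultra y x z
      have h3 := ultra x y z
      rw [hh_comm y x] at h2
      omega
    unfold wz
    rw [h1, div_eq_of_hd_lt hxy (by omega : hd x y < hh x z)]
    exact lt_irrefl _
  · intro h
    by_contra hcon
    apply h
    rw [not_lt] at hcon
    set d := hd x y with hd'
    rw [hh1] at hcon
    have h2 : hh y z ≤ d := by
      have h3 := ultra y x z
      rw [hh_comm y x, hh1] at h3
      omega
    have h3 : x / 2 ^ d ≠ y / 2 ^ d := (hd_spec hxy d).1 le_rfl
    have h4 : x / 2 ^ d < y / 2 ^ d :=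
      lt_of_le_of_ne (Nat.div_le_div_right hxy.le) h3
    have h5 : wz z x ≤ x := Nat.div_mul_le_self _ _
    have h6 : x < y / 2 ^ d * 2 ^ d := by
      have h7 : x < (x / 2 ^ d + 1) * 2 ^ d := by
        have := Nat.lt_div_mul_add (a := x) (b := 2 ^ d) (by positivity)
        rw [add_mul, one_mul]
        exact this
      exact h7.trans_le (Nat.mul_le_mul_right _ h4)
    have h7 : y / 2 ^ d * 2 ^ d ≤ wz z y := by
      unfold wz
      obtain ⟨k, hk⟩ := Nat.exists_eq_add_of_le h2
      rw [hk, pow_add, ← mul_assoc, mul_comm (y / (2 ^ hh y z * 2 ^ k)), mul_assoc, mul_comm]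
      have h8 : y / (2 ^ hh y z * 2 ^ k) * 2 ^ k ≤ y / 2 ^ hh y z := by
        rw [← Nat.div_div_eq_div_mul]
        exact Nat.div_mul_le_self _ _
      calc y / (2 ^ hh y z * 2 ^ k) * 2 ^ k * 2 ^ hh y z ≤ y / 2 ^ hh y z * 2 ^ hh y z :=
            Nat.mul_le_mul_right _ h8
        _ = _ := rfl
    omega

theorem wz_lt' {x y z : ℕ} (hxy : x < y) :
    hh x y < hh y z ↔ ¬ wz z x < wz z y := by
  rw [← wz_lt hxy]
  have h2 := ultra y x z
  have h3 := ultra x y z
  rw [hh_comm y x] at h2
  omega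

end Run7.h64.SS
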