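import Pool.Agent.Run7.h64.SS.Tower

/-!
# Sharpness of the sign rank theorem
-/

set_option autoImplicit false

namespace Run7.h64.SS

open Finset Pool.Agent.TH138.NF Pool.Agent.Y424.LK Run7.h64.SR

/-- the choice of the parameter -/
theorem choose_e (K k n : ℕ) (hK : 2 ≤ K) (hk : K ^ 2 ≤ k) (hkn : k ≤ n ^ 2) :
    ∃ e : ℕ, 1 ≤ e ∧ (K * e) ^ 2 ≤ k ∧ K * e ≤ n ∧ Real.sqrt k / ((K ^ 2 : ℕ) : ℝ) ≤ e := by
  set q := Nat.sqrt k with hq
  have h1 : q * q ≤ k := Nat.sqrt_le k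
  have h2 : k < (q + 1) * (q + 1) := Nat.lt_succ_sqrt k
  have hKq : K ≤ q := by
    rw [hq, Nat.le_sqrt, ← sq]
    exact hk
  have hqn : q ≤ n := by
    by_contra hcon
    push Not at hcon
    nlinarith
  have he1 : K * (q / K) ≤ q := Nat.mul_div_le q K
  have he2 : q < K * (q / K) + K := by
    have h3 := Nat.div_add_mod q K
    have h4 := Nat.mod_lt q (show 0 < K by omega)
    omega
  have hpos : 1 ≤ q / K := (Nat.le_div_iff_mul_le (by omega)).2 (by omega)
  refine ⟨q / K, hpos, ?_, he1.trans hqn, ?_⟩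
  · rw [sq]
    exact (Nat.mul_le_mul he1 he1).trans h1
  · rw [div_le_iff₀ (by positivity)]
    have h3 : Real.sqrt k ≤ q + 1 := by
      rw [Real.sqrt_le_left (by positivity)]
      have : (k : ℝ) ≤ (q + 1) * (q + 1) := by exact_mod_cast h2.le
      rw [sq]
      exact this
    have h4 : q + 1 ≤ 2 * K * (q / K) := by
      have h5 : K ≤ K * (q / K) := Nat.le_mul_of_pos_right K hpos
      have h6 : 2 * K * (q / K) = K * (q / K) + K * (q / K) := by ring
      omega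
    have h5 : 2 * K * (q / K) ≤ (q / K) * K ^ 2 := by
      have h6 : 2 * K ≤ K ^ 2 := by nlinarith
      calc 2 * K * (q / K) ≤ K ^ 2 * (q / K) := Nat.mul_le_mul_right _ h6
        _ = _ := mul_comm _ _
    have h6 : ((q : ℝ) + 1) ≤ ((q / K : ℕ) : ℝ) * ((K ^ 2 : ℕ) : ℝ) := by
      exact_mod_cast h4.trans h5
    exact h3.trans h6

/-- Pairs, two colours. -/
theorem sharp_two : ∃ t C : ℕ, 1 ≤ C ∧ ∀ k n : ℕ, C ≤ k → k ≤ n ^ 2 →
    ∃ (N : ℕ) (c : Finset ℕ → Bool) (κ : Fin t → ℕ),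
      tow 1 (Real.sqrt k / C) ≤ N ∧ (∀ H ⊆ range N, H.card = n → ¬ Homogeneous 2 c H) ∧
      (∀ j, 1 ≤ κ j) ∧ ∏ j, κ j ≤ k ∧
      ∀ U ⊆ range N, ∀ S ⊆ range N, Disjoint U S → S.card = 0 → LinkSignRank c U S κ := by
  classical
  set K : ℕ := 10 ^ 8 with hK
  refine ⟨1, K ^ 2, Nat.one_le_pow _ _ (by norm_num), ?_⟩
  intro k n hk hkn
  obtain ⟨e, he, h1, h2, h3⟩ := choose_e K k n (by norm_num [hK]) hk hkn
  obtain ⟨G, hG, hhom⟩ := exists_graph e he
  refine ⟨2 ^ e, colG G, fun _ => 90000 * (250000 * e) ^ 2 + 1, ?_, ?_,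
    fun _ => Nat.succ_le_succ (Nat.zero_le _), ?_, ?_⟩
  · show (2 : ℝ) ^ _ ≤ _
    push_cast
    rw [← Real.rpow_natCast 2 e]
    apply Real.rpow_le_rpow_of_exponent_le (by norm_num)
    exact_mod_cast h3
  · intro H hH hc hh
    obtain ⟨T, hTH, hTc⟩ := exists_subset_card_eq (s := H) (n := 1000000 * e) (by
      rw [hc]
      rw [hK] at h2
      omega)
    have hcard : 1 < T.card := by omega
    obtain ⟨x₀, hx₀, y₀, hy₀, hne₀⟩ := Finset.one_lt_card.1 hcard
    refine hhom T hTc (fun a ha => mem_range.1 (hH (hTH ha))) (adjN G x₀ y₀) ?_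
    intro a ha b hb hab
    rw [← colG_pair, ← colG_pair]
    apply hh
    · intro z hz
      rw [mem_insert, mem_singleton] at hz
      rcases hz with rfl | rfl
      · exact hTH ha
      · exact hTH hb
    · intro z hz
      rw [mem_insert, mem_singleton] at hz
      rcases hz with rfl | rfl
      · exact hTH hx₀
      · exact hTH hy₀
    · exact card_pair hab.ne
    · exact card_pair hne₀
  · rw [univ_unique, prod_const, card_singleton, pow_one]
    refine le_trans ?_ h1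
    rw [hK]
    nlinarith
  · intro U hU S hS _ hSc
    rw [card_eq_zero] at hSc
    subst hSc
    refine ⟨fun _ x y => adjN G x y = true, fun _ => signRank_mono_set hG hU, ?_⟩
    intro x hx y hy hxy x' hx' y' hy' hxy' h
    have e1 : ∀ x y : ℕ, insert x (insert y (∅ : Finset ℕ)) = {x, y} := fun x y => by
      ext z
      simp
    rw [e1, e1, colG_pair, colG_pair, Bool.eq_iff_iff]
    exact h 0

/-- Four colours, every uniformity. -/
theorem sharp_four (s : ℕ) : ∃ t C : ℕ, 1 ≤ C ∧ ∀ k n : ℕ, C ≤ k → k ≤ n ^ 2 →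
    ∃ (N : ℕ) (c : Finset ℕ → Bool × Bool) (κ : Fin t → ℕ),
      tow (s + 2) (Real.sqrt k / C) ≤ N ∧
      (∀ H ⊆ range N, H.card = n → ¬ Homogeneous (s + 3) c H) ∧
      (∀ j, 1 ≤ κ j) ∧ ∏ j, κ j ≤ k ∧
      ∀ U ⊆ range N, ∀ S ⊆ range N, Disjoint U S → S.card = s + 1 → LinkSignRank c U S κ := by
  classical
  obtain ⟨J, _, kk, C₀, hC₀, hprod, hkk, htower⟩ := tower_sr s
  set K : ℕ := 10 ^ 8 * C₀ + 2 ^ s * (1000001 + s) with hK
  have hK2 : 2 ≤ K := by
    have : 10 ^ 8 * 1 ≤ 10 ^ 8 * C₀ := Nat.mul_le_mul_left _ hC₀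
    omega
  refine ⟨Fintype.card J, K ^ 2, Nat.one_le_pow _ _ (by omega), ?_⟩
  intro k n hk hkn
  obtain ⟨e, he, h1, h2, h3⟩ := choose_e K k n hK2 hk hkn
  obtain ⟨G, hG, hhom⟩ := exists_graph e he
  set D := 90000 * (250000 * e) ^ 2 + 1 with hD
  obtain ⟨P, ⟨n', hn2, hn', hP⟩, hL⟩ := htower (2 ^ e) (1000000 * e) D G Nat.one_le_two_pow
    (by omega) (linksSR_graph G hG) hhom
  refine ⟨NN (2 ^ e) s, colour P (false, false),
    fun i => kk D ((Fintype.equivFin J).symm i), ?_, ?_, fun j => hkk _ _, ?_, ?_⟩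
  · rw [NN_tow, tow_two]
    apply tow_mono
    push_cast
    rw [← Real.rpow_natCast 2 e]
    apply Real.rpow_le_rpow_of_exponent_le (by norm_num)
    exact_mod_cast h3
  · intro H hH hc hh
    have hnn : n' ≤ H.card := by
      rw [hc]
      refine hn'.trans (le_trans ?_ h2)
      calc 2 ^ s * (1000000 * e + 1 + s) ≤ 2 ^ s * ((1000001 + s) * e) := by
            apply Nat.mul_le_mul_left
            nlinarith
        _ = 2 ^ s * (1000001 + s) * e := by ring
        _ ≤ K * e := Nat.mul_le_mul_right _ (by omega)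
    obtain ⟨T, hTH, hTc⟩ := exists_subset_card_eq hnn
    refine hP T (hTH.trans hH) hTc (hom_of_homogeneous
      (computes_colour P (false, false) (NN (2 ^ e) s)) (hTH.trans hH) ?_)
    intro A hA B hB
    exact hh A (hA.trans hTH) B (hB.trans hTH)
  · have e1 : ∏ i, kk D ((Fintype.equivFin J).symm i) = ∏ j, kk D j :=
      Equiv.prod_comp (Fintype.equivFin J).symm (fun j => kk D j)
    rw [e1]
    refine (hprod D (by omega)).trans (le_trans ?_ h1)
    have h4 : D ≤ 10 ^ 16 * e ^ 2 := by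
      rw [hD]
      nlinarith
    have h5 : 10 ^ 8 * C₀ * e ≤ K * e := Nat.mul_le_mul_right _ (by omega)
    calc C₀ * D ≤ C₀ * (10 ^ 16 * e ^ 2) := Nat.mul_le_mul_left _ h4
      _ ≤ C₀ * C₀ * (10 ^ 16 * e ^ 2) := Nat.mul_le_mul_right _ (Nat.le_mul_of_pos_left _ hC₀)
      _ = (10 ^ 8 * C₀ * e) ^ 2 := by ring
      _ ≤ (K * e) ^ 2 := Nat.pow_le_pow_left h5 2
  · intro U hU S hS hUS hSc
    exact linkSignRank_of_linksSR hL U S hU hS hUS hSc

end Run7.h64.SS
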