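import Pool.Agent.Run7.h64.SS.Dist
import Pool.Agent.Run7.h64.SR.Poly

/-!
# The bilinear form for the links of a stepped up colouring
-/

set_option autoImplicit false

namespace Run7.h64.SS

open Finset Pool.Agent.TH138.NF Pool.Agent.Y424.LK Run7.h64.SR

theorem exists_upper {α : Type} (T : Finset α) (f : α → ℝ) : ∃ C : ℝ, 0 < C ∧ ∀ z ∈ T, |f z| ≤ C := by
  classical
  induction T using Finset.induction_on with
  | empty => exact ⟨1, one_pos, by simp⟩
  | insert z T _ ih =>
    obtain ⟨C, hC, h⟩ := ih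
    refine ⟨max C |f z|, lt_max_of_lt_left hC, ?_⟩
    intro w hw
    rcases mem_insert.1 hw with rfl | hw
    · exact le_max_right _ _
    · exact (h w hw).trans (le_max_left _ _)

theorem exists_lower {α : Type} (T : Finset α) (f : α → ℝ) (hf : ∀ z ∈ T, f z ≠ 0) :
    ∃ ε : ℝ, 0 < ε ∧ ∀ z ∈ T, ε ≤ |f z| := by
  classical
  induction T using Finset.induction_on with
  | empty => exact ⟨1, one_pos, by simp⟩
  | insert z T _ ih =>
    obtain ⟨ε, hε, h⟩ := ih fun w hw => hf w (mem_insert_of_mem hw)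
    refine ⟨min ε |f z|, lt_min hε (abs_pos.2 (hf z (mem_insert_self _ _))), ?_⟩
    intro w hw
    rcases mem_insert.1 hw with rfl | hw
    · exact min_le_right _ _
    · exact (min_le_left _ _).trans (h w hw)

/-- Symmetric vectors. -/
theorem sym_vectors {N D : ℕ} {V : Finset ℕ} (hV : V ⊆ range N) {Q : ℕ → ℕ → Prop}
    (hQ : SignRankLE Q V D) : ∃ A B : ℕ → (Fin D ⊕ Fin D) → ℝ, ∀ u ∈ V, ∀ v ∈ V, u ≠ v →
      (Q (min u v) (max u v) → 0 < ∑ i, A u i * B v i) ∧
      (¬ Q (min u v) (max u v) → ∑ i, A u i * B v i < 0) := by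
  classical
  obtain ⟨a, b, hab⟩ := hQ
  obtain ⟨C, hC, hCb⟩ := exists_upper (V ×ˢ V) (fun z => ∑ i, b z.1 i * a z.2 i)
  obtain ⟨ε, hε, hεb⟩ := exists_lower ((V ×ˢ V).filter fun z => z.1 < z.2)
    (fun z => ∑ i, a z.1 i * b z.2 i) (by
      intro z hz
      obtain ⟨h1, h2⟩ := mem_filter.1 hz
      obtain ⟨h3, h4⟩ := mem_product.1 h1
      have h5 := hab z.1 h3 z.2 h4 h2
      by_cases hq : Q z.1 z.2
      · exact (h5.1 hq).ne'
      · exact (h5.2 hq).ne)
  set μ : ℝ := 1 + C / ε with hμ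
  have hμ1 : 1 ≤ μ := by
    have : 0 ≤ C / ε := by positivity
    linarith
  have hμ0 : 0 < μ := by linarith
  have hμε : C < μ * ε := by
    have : C / ε * ε = C := div_mul_cancel₀ C hε.ne'
    rw [hμ, add_mul, this]
    linarith
  refine ⟨fun u => Sum.elim (fun i => μ ^ (N - u) * a u i) (fun i => μ ^ u * b u i),
    fun v => Sum.elim (fun i => μ ^ v * b v i) (fun i => μ ^ (N - v) * a v i), ?_⟩
  have hform : ∀ u v, ∑ i : Fin D ⊕ Fin D,
      Sum.elim (fun i => μ ^ (N - u) * a u i) (fun i => μ ^ u * b u i) i *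
      Sum.elim (fun i => μ ^ v * b v i) (fun i => μ ^ (N - v) * a v i) i =
      μ ^ (N - u + v) * (∑ i, a u i * b v i) + μ ^ (N - v + u) * ∑ i, b u i * a v i := by
    intro u v
    rw [Fintype.sum_sum_type]
    simp only [Sum.elim_inl, Sum.elim_inr]
    rw [mul_sum, mul_sum, pow_add, pow_add]
    congr 1
    · exact sum_congr rfl fun i _ => by ring
    · exact sum_congr rfl fun i _ => by ring
  -- the dominating term
  have hdom : ∀ u ∈ V, ∀ v ∈ V, u < v → ∀ p q : ℕ, q < p →
      μ ^ q * |∑ i, b v i * a u i| < μ ^ p * |∑ i, a u i * b v i| ∧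
      μ ^ q * |∑ i, b u i * a v i| < μ ^ p * |∑ i, a u i * b v i| := by
    intro u hu v hv huv p q hqp
    have h1 := hεb (u, v) (mem_filter.2 ⟨mem_product.2 ⟨hu, hv⟩, huv⟩)
    have h2 := hCb (v, u) (mem_product.2 ⟨hv, hu⟩)
    have h3 := hCb (u, v) (mem_product.2 ⟨hu, hv⟩)
    simp only at h1 h2 h3
    have h4 : μ ^ q * C < μ ^ p * |∑ i, a u i * b v i| := by
      calc μ ^ q * C < μ ^ q * (μ * ε) := mul_lt_mul_of_pos_left hμε (by positivity)
        _ = μ ^ (q + 1) * ε := by rw [pow_succ]; ring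
        _ ≤ μ ^ p * ε := mul_le_mul_of_nonneg_right (pow_le_pow_right₀ hμ1 hqp) hε.le
        _ ≤ _ := mul_le_mul_of_nonneg_left h1 (by positivity)
    exact ⟨(mul_le_mul_of_nonneg_left h2 (by positivity)).trans_lt h4,
      (mul_le_mul_of_nonneg_left h3 (by positivity)).trans_lt h4⟩
  intro u hu v hv huv
  rw [hform]
  have huN := mem_range.1 (hV hu)
  have hvN := mem_range.1 (hV hv)
  rcases lt_or_gt_of_ne huv with h | h
  · rw [min_eq_left h.le, max_eq_right h.le]
    have h1 := (hdom u hu v hv h (N - u + v) (N - v + u) (by omega)).2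
    have h2 := abs_le.1 (le_refl |∑ i, b u i * a v i|)
    have h3 := hab u hu v hv h
    have h5 : 0 < μ ^ (N - v + u) := by positivity
    have h6 : 0 < μ ^ (N - u + v) := by positivity
    have h7 : -(μ ^ (N - v + u) * |∑ i, b u i * a v i|) ≤ μ ^ (N - v + u) * ∑ i, b u i * a v i := by
      rw [← mul_neg]
      exact mul_le_mul_of_nonneg_left h2.1 h5.le
    have h8 : μ ^ (N - v + u) * ∑ i, b u i * a v i ≤ μ ^ (N - v + u) * |∑ i, b u i * a v i| :=
      mul_le_mul_of_nonneg_left h2.2 h5.le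
    refine ⟨fun hq => ?_, fun hq => ?_⟩
    · rw [abs_of_pos (h3.1 hq)] at h1
      linarith
    · rw [abs_of_neg (h3.2 hq), mul_neg] at h1
      linarith
  · rw [min_eq_right h.le, max_eq_left h.le]
    have h1 := (hdom v hv u hu h (N - v + u) (N - u + v) (by omega)).1
    have e1 : ∑ i, b u i * a v i = ∑ i, a v i * b u i := sum_congr rfl fun i _ => mul_comm _ _
    have e2 : ∑ i, b u i * a v i = ∑ i, a v i * b u i := e1
    rw [e1]
    have e3 : ∑ i, a u i * b v i = ∑ i, b v i * a u i := sum_congr rfl fun i _ => mul_comm _ _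
    have h1' : μ ^ (N - u + v) * |∑ i, a u i * b v i| < μ ^ (N - v + u) * |∑ i, a v i * b u i| := by
      have h1 := hεb (v, u) (mem_filter.2 ⟨mem_product.2 ⟨hv, hu⟩, h⟩)
      have h2 := hCb (v, u) (mem_product.2 ⟨hv, hu⟩)
      simp only at h1 h2
      rw [e3]
      calc μ ^ (N - u + v) * |∑ i, b v i * a u i| ≤ μ ^ (N - u + v) * C :=
            mul_le_mul_of_nonneg_left h2 (by positivity)
        _ < μ ^ (N - u + v) * (μ * ε) := mul_lt_mul_of_pos_left hμε (by positivity)
        _ = μ ^ (N - u + v + 1) * ε := by rw [pow_succ]; ring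
        _ ≤ μ ^ (N - v + u) * ε :=
            mul_le_mul_of_nonneg_right (pow_le_pow_right₀ hμ1 (by omega)) hε.le
        _ ≤ _ := mul_le_mul_of_nonneg_left h1 (by positivity)
    have h2 := abs_le.1 (le_refl |∑ i, a u i * b v i|)
    have h3 := hab v hv u hu h
    have h5 : 0 < μ ^ (N - u + v) := by positivity
    have h7 : -(μ ^ (N - u + v) * |∑ i, a u i * b v i|) ≤ μ ^ (N - u + v) * ∑ i, a u i * b v i := by
      rw [← mul_neg]
      exact mul_le_mul_of_nonneg_left h2.1 h5.le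
    have h8 : μ ^ (N - u + v) * ∑ i, a u i * b v i ≤ μ ^ (N - u + v) * |∑ i, a u i * b v i| :=
      mul_le_mul_of_nonneg_left h2.2 h5.le
    refine ⟨fun hq => ?_, fun hq => ?_⟩
    · rw [abs_of_pos (h3.1 hq)] at h1'
      linarith
    · rw [abs_of_neg (h3.2 hq), mul_neg] at h1'
      linarith

/-- binary digits -/
def bit (x i : ℕ) : ℝ := ((x / 2 ^ i % 2 : ℕ) : ℝ)

theorem bit_bound (x i : ℕ) : 0 ≤ bit x i ∧ bit x i ≤ 1 := by
  unfold bit
  constructor
  · exact Nat.cast_nonneg _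
  · have : x / 2 ^ i % 2 ≤ 1 := by omega
    exact_mod_cast this

theorem bit_sub_le (x y i : ℕ) : |bit y i - bit x i| ≤ 1 := by
  have h1 := bit_bound x i
  have h2 := bit_bound y i
  rw [abs_le]
  constructor <;> linarith

theorem bit_top {x y : ℕ} (h : x < y) : bit y (hd x y) - bit x (hd x y) = 1 := by
  set d := hd x y with hd'
  have h1 : x / 2 ^ d ≠ y / 2 ^ d := (hd_spec h d).1 le_rfl
  have h2 : x / 2 ^ (d + 1) = y / 2 ^ (d + 1) := div_eq_of_hd_lt h (by omega)
  have h3 : x / 2 ^ d ≤ y / 2 ^ d := Nat.div_le_div_right h.le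
  rw [pow_succ, ← Nat.div_div_eq_div_mul, ← Nat.div_div_eq_div_mul] at h2
  have h4 : x / 2 ^ d % 2 = 0 := by omega
  have h5 : y / 2 ^ d % 2 = 1 := by omega
  unfold bit
  rw [h4, h5]
  norm_num

theorem bit_above {x y i : ℕ} (h : x < y) (hi : hd x y < i) : bit y i - bit x i = 0 := by
  unfold bit
  rw [div_eq_of_hd_lt h hi]
  ring

/-- the highest digit dominates -/
theorem dominate {N x y : ℕ} (hxy : x < y) (hy : y < 2 ^ N) (G : ℕ → ℝ) {C ε l : ℝ} (hl : 1 < l)
    (hC : ∀ i < N, |G i| ≤ C) (hCε : C ≤ ε * (l - 1)) (hε : ε ≤ |G (hd x y)|) (hε0 : 0 < ε) :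
    (0 < G (hd x y) → 0 < ∑ i ∈ range N, (bit y i - bit x i) * l ^ i * G i) ∧
    (G (hd x y) < 0 → ∑ i ∈ range N, (bit y i - bit x i) * l ^ i * G i < 0) := by
  set d := hd x y with hd'
  have hdN : d < N := hd_lt hxy hy
  have hsplit : ∑ i ∈ range N, (bit y i - bit x i) * l ^ i * G i =
      ∑ i ∈ range d, (bit y i - bit x i) * l ^ i * G i + l ^ d * G d := by
    have h1 : ∑ i ∈ range N, (bit y i - bit x i) * l ^ i * G i =
        ∑ i ∈ range (d + 1), (bit y i - bit x i) * l ^ i * G i := by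
      symm
      apply sum_subset
      · intro i hi
        rw [mem_range] at hi ⊢
        omega
      · intro i _ hi
        rw [mem_range, not_lt] at hi
        rw [bit_above hxy (by omega), zero_mul, zero_mul]
    rw [h1, sum_range_succ, bit_top hxy, one_mul]
  have hlow : |∑ i ∈ range d, (bit y i - bit x i) * l ^ i * G i| < l ^ d * |G d| := by
    have hC0 : 0 ≤ C := (abs_nonneg _).trans (hC d hdN)
    have h0l : 0 < l := by linarith
    calc |∑ i ∈ range d, (bit y i - bit x i) * l ^ i * G i| ≤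
          ∑ i ∈ range d, |(bit y i - bit x i) * l ^ i * G i| := abs_sum_le_sum_abs _ _
      _ ≤ ∑ i ∈ range d, l ^ i * C := by
          refine sum_le_sum fun i hi => ?_
          rw [abs_mul, abs_mul, abs_of_pos (pow_pos h0l i)]
          have h1 := bit_sub_le x y i
          have h2 := hC i (by rw [mem_range] at hi; omega)
          calc |bit y i - bit x i| * l ^ i * |G i| ≤ 1 * l ^ i * C := by
                apply mul_le_mul _ h2 (abs_nonneg _) (by positivity)
                exact mul_le_mul_of_nonneg_right h1 (by positivity)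
            _ = l ^ i * C := by ring
      _ = (∑ i ∈ range d, l ^ i) * C := by rw [sum_mul]
      _ ≤ (∑ i ∈ range d, l ^ i) * (ε * (l - 1)) :=
          mul_le_mul_of_nonneg_left hCε (sum_nonneg fun i _ => (pow_pos h0l i).le)
      _ = ε * (l ^ d - 1) := by
          rw [← geom_sum_mul l d]
          ring
      _ < ε * l ^ d := by nlinarith
      _ ≤ l ^ d * |G d| := by
          rw [mul_comm]
          exact mul_le_mul_of_nonneg_left hε (by positivity)
  have h1 := abs_lt.1 hlow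
  rw [hsplit]
  constructor
  · intro h
    rw [abs_of_pos h] at h1
    linarith [h1.1]
  · intro h
    rw [abs_of_neg h, mul_neg] at h1
    linarith [h1.2]

theorem floor_lt {x y p q : ℕ} (hxy : x < y) (hq : q ≤ hd x y) :
    x / 2 ^ p * 2 ^ p < y / 2 ^ q * 2 ^ q := by
  set d := hd x y with hd'
  have h3 : x / 2 ^ d ≠ y / 2 ^ d := (hd_spec hxy d).1 le_rfl
  have h4 : x / 2 ^ d < y / 2 ^ d :=
    lt_of_le_of_ne (Nat.div_le_div_right hxy.le) h3
  have h5 : x / 2 ^ p * 2 ^ p ≤ x := Nat.div_mul_le_self _ _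
  have h6 : x < y / 2 ^ d * 2 ^ d := by
    have h7 : x < (x / 2 ^ d + 1) * 2 ^ d := by
      have := Nat.lt_div_mul_add (a := x) (b := 2 ^ d) (by positivity)
      rw [add_mul, one_mul]
      exact this
    exact h7.trans_le (Nat.mul_le_mul_right _ h4)
  have h7 : y / 2 ^ d * 2 ^ d ≤ y / 2 ^ q * 2 ^ q := by
    obtain ⟨k, hk⟩ := Nat.exists_eq_add_of_le hq
    rw [hk, pow_add]
    have h8 : y / (2 ^ q * 2 ^ k) * 2 ^ k ≤ y / 2 ^ q := by
      rw [← Nat.div_div_eq_div_mul]
      exact Nat.div_mul_le_self _ _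
    calc y / (2 ^ q * 2 ^ k) * (2 ^ q * 2 ^ k) = y / (2 ^ q * 2 ^ k) * 2 ^ k * 2 ^ q := by ring
      _ ≤ y / 2 ^ q * 2 ^ q := Nat.mul_le_mul_right _ h8
  omega

theorem near_eq {S : Finset ℕ} {x y g g' : ℕ} (hx : Near S x g) (hy : Near S y g')
    (h : hh x y < hh g' y) : hh g x = hh g' y := by
  have hmin : ∀ z ∈ S, hh g x ≤ hh z x := fun z hz => by
    rw [hx.2 z hz]
    exact le_max_left _ _
  have hmin' : ∀ z ∈ S, hh g' y ≤ hh z y := fun z hz => by
    rw [hy.2 z hz]
    exact le_max_left _ _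
  have h1 := hmin g' hy.1
  have h2 := hmin' g hx.1
  have h3 := ultra g' y x
  have h4 := ultra g x y
  rw [hh_comm y x] at h3
  have h5 : hh g' x ≤ hh g' y := by
    rcases max_choice (hh g' y) (hh x y) with e | e
    · rwa [e] at h3
    · rw [e] at h3
      omega
  have h6 : hh g y ≤ hh g x := by
    rcases max_choice (hh g x) (hh x y) with e | e
    · rwa [e] at h4
    · rw [e] at h4
      omega
  omega

/-- The form. -/
theorem form_step {N D : ℕ} {S : Finset ℕ} (hN : 1 ≤ N) (hSr : S ⊆ range (2 ^ N)) (g : ℕ → ℕ)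
    (hg : ∀ x, Near S x (g x)) {Q : ℕ → ℕ → Prop} (hQ : SignRankLE Q (range N \ LL S) D) :
    ∃ Q' : ℕ → ℕ → Prop, SignRankLE Q' (range (2 ^ N) \ S) (4 * D + 1) ∧
      ∀ x ∈ range (2 ^ N) \ S, ∀ y ∈ range (2 ^ N) \ S, x < y → ∀ r : ℕ,
        r = (if hh x y < hh (g y) y then hh x y else hh (g y) y) → hh (g x) x ≠ r →
        hh (g x) x ∈ range N \ LL S → r ∈ range N \ LL S →
        (Q' x y ↔ Q (min (hh (g x) x) r) (max (hh (g x) x) r)) := by
  classical
  obtain ⟨A, B, hAB⟩ := sym_vectors (N := N) sdiff_subset hQ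
  set V := range N \ LL S with hV
  obtain ⟨C, hC, hCb⟩ := exists_upper (range N ×ˢ range N) (fun z => ∑ i, A z.1 i * B z.2 i)
  obtain ⟨ε, hε, hεb⟩ := exists_lower ((V ×ˢ V).filter fun z => z.1 ≠ z.2)
    (fun z => ∑ i, A z.1 i * B z.2 i) (by
      intro z hz
      obtain ⟨h1, h2⟩ := mem_filter.1 hz
      obtain ⟨h3, h4⟩ := mem_product.1 h1
      have h5 := hAB z.1 h3 z.2 h4 h2
      by_cases hq : Q (min z.1 z.2) (max z.1 z.2)
      · exact (h5.1 hq).ne'
      · exact (h5.2 hq).ne)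
  set l : ℝ := 2 + C / ε with hl
  have hl1 : 1 < l := by
    have : 0 ≤ C / ε := by positivity
    linarith
  have hCl : C ≤ ε * (l - 1) := by
    have h1 : ε * (l - 1) = ε + C := by
      rw [hl]
      field_simp
      ring
    linarith
  set C₂ : ℝ := ∑ i ∈ range N, l ^ i * C with hC₂
  have hC₂0 : 0 ≤ C₂ := sum_nonneg fun i _ => by positivity
  set Ω : ℝ := (C₂ + 1) / ε with hΩ
  have hΩ0 : 0 < Ω := by positivity
  have hΩε : Ω * ε = C₂ + 1 := div_mul_cancel₀ _ hε.ne'
  let ρ : ℕ → ℕ := fun x => hh (g x) x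
  let w : ℕ → ℕ := fun x => x / 2 ^ ρ x * 2 ^ ρ x
  let F : ℕ → ℕ → ℝ := fun x y => Ω * ((w y : ℝ) - w x) * (∑ i, A (ρ x) i * B (ρ y) i) +
    ∑ j ∈ range N, (bit y j - bit x j) * l ^ j * ∑ i, A j i * B (ρ y) i
  let a' : ℕ → Option (Bool × (Fin D ⊕ Fin D)) → ℝ := fun x o =>
    match o with
    | none => 1
    | some (true, i) => -(Ω * w x * A (ρ x) i) - ∑ j ∈ range N, bit x j * l ^ j * A j i
    | some (false, i) => A (ρ x) i
  let b' : ℕ → Option (Bool × (Fin D ⊕ Fin D)) → ℝ := fun y o =>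
    match o with
    | none => ∑ j ∈ range N, bit y j * l ^ j * ∑ i, A j i * B (ρ y) i
    | some (true, i) => B (ρ y) i
    | some (false, i) => Ω * w y * B (ρ y) i
  have hF : ∀ x y, F x y = ∑ o, a' x o * b' y o := by
    intro x y
    rw [Fintype.sum_option, Fintype.sum_prod_type, Fintype.sum_bool]
    simp only [a', b', F]
    have e1 : ∑ i, (-(Ω * w x * A (ρ x) i) - ∑ j ∈ range N, bit x j * l ^ j * A j i) * B (ρ y) i =
        -(Ω * w x) * (∑ i, A (ρ x) i * B (ρ y) i) -
          ∑ j ∈ range N, bit x j * l ^ j * ∑ i, A j i * B (ρ y) i := by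
      simp only [sub_mul, sum_sub_distrib, mul_sum, sum_mul]
      congr 1
      · exact sum_congr rfl fun i _ => by ring
      · rw [sum_comm]
        refine sum_congr rfl fun j _ => sum_congr rfl fun i _ => ?_
        ring
    have e2 : ∑ i, A (ρ x) i * (Ω * w y * B (ρ y) i) =
        Ω * w y * ∑ i, A (ρ x) i * B (ρ y) i := by
      rw [mul_sum]
      exact sum_congr rfl fun i _ => by ring
    rw [e1, e2]
    have e3 : ∑ j ∈ range N, (bit y j - bit x j) * l ^ j * ∑ i, A j i * B (ρ y) i =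
        ∑ j ∈ range N, bit y j * l ^ j * ∑ i, A j i * B (ρ y) i -
          ∑ j ∈ range N, bit x j * l ^ j * ∑ i, A j i * B (ρ y) i := by
      rw [← sum_sub_distrib]
      exact sum_congr rfl fun j _ => by ring
    rw [e3]
    ring
  refine ⟨fun x y => 0 ≤ F x y, signRankLE_of_sum (ι := Option (Bool × (Fin D ⊕ Fin D)))
    (by simp; ring) _ F a' b' none (fun _ => rfl) hF, ?_⟩
  intro x hx y hy hxy r hr hne hu hrV
  rw [mem_sdiff, mem_range] at hx hy
  have hρy : hh (g y) y < N := by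
    apply hh_bound hN (mem_range.1 (hSr (hg y).1)) hy.1
  have hG : ∀ i < N, |∑ k, A i k * B (ρ y) k| ≤ C := fun i hi =>
    hCb (i, ρ y) (mem_product.2 ⟨mem_range.2 hi, mem_range.2 hρy⟩)
  by_cases hcase : hh x y < hh (g y) y
  · -- the same interval
    rw [if_pos hcase] at hr
    have hρ : hh (g x) x = hh (g y) y := near_eq (hg x) (hg y) hcase
    have hhd : hh x y = hd x y := hh_lt hxy
    have hw : w x = w y := by
      have h1 : ρ x = ρ y := hρ
      have h2 : x / 2 ^ ρ y = y / 2 ^ ρ y := div_eq_of_hd_lt hxy (by rw [← hhd]; exact hcase)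
      simp only [w]
      rw [h1, h2]
    have hρyV : ρ y ∈ V := by
      show hh (g y) y ∈ V
      rw [← hρ]
      exact hu
    have hdV : hd x y ∈ V := by
      rw [← hhd, ← hr]
      exact hrV
    have hne' : hd x y ≠ ρ y := by
      rw [← hhd]
      exact hcase.ne
    have h1 := hAB (hd x y) hdV (ρ y) hρyV hne'
    have h2 := hεb (hd x y, ρ y) (mem_filter.2 ⟨mem_product.2 ⟨hdV, hρyV⟩, hne'⟩)
    have h3 := dominate hxy hy.1 (fun j => ∑ i, A j i * B (ρ y) i) hl1 hG hCl h2 hε
    have hFe : F x y = ∑ j ∈ range N, (bit y j - bit x j) * l ^ j * ∑ i, A j i * B (ρ y) i := by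
      simp only [F]
      rw [hw]
      ring
    have e1 : min (hh (g x) x) r = min (hd x y) (ρ y) := by
      rw [hr, hρ, hhd, min_comm]
    have e2 : max (hh (g x) x) r = max (hd x y) (ρ y) := by
      rw [hr, hρ, hhd, max_comm]
    rw [e1, e2]
    show 0 ≤ F x y ↔ _
    rw [hFe]
    constructor
    · intro h4
      by_contra h5
      have := h3.2 (h1.2 h5)
      linarith
    · intro h4
      exact (h3.1 (h1.1 h4)).le
  · -- different intervals
    rw [if_neg hcase] at hr
    have hhd : hh x y = hd x y := hh_lt hxy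
    have hw : (w x : ℝ) + 1 ≤ w y := by
      have h1 : w x < w y := floor_lt hxy (by
        rw [← hhd]
        exact not_lt.1 hcase)
      exact_mod_cast h1
    have hrρ : r = ρ y := hr
    rw [hrρ] at hrV hne ⊢
    have h1 := hAB (ρ x) hu (ρ y) hrV hne
    have h2 := hεb (ρ x, ρ y) (mem_filter.2 ⟨mem_product.2 ⟨hu, hrV⟩, hne⟩)
    simp only at h2
    have h3 : |∑ j ∈ range N, (bit y j - bit x j) * l ^ j * ∑ i, A j i * B (ρ y) i| ≤ C₂ := by
      refine (abs_sum_le_sum_abs _ _).trans (sum_le_sum fun j hj => ?_)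
      rw [abs_mul, abs_mul, abs_of_pos (show 0 < l ^ j by positivity)]
      calc |bit y j - bit x j| * l ^ j * |∑ i, A j i * B (ρ y) i| ≤ 1 * l ^ j * C := by
            apply mul_le_mul _ (hG j (mem_range.1 hj)) (abs_nonneg _) (by positivity)
            exact mul_le_mul_of_nonneg_right (bit_sub_le x y j) (by positivity)
        _ = l ^ j * C := by ring
    have h4 := abs_le.1 h3
    have hFe : F x y = Ω * ((w y : ℝ) - w x) * (∑ i, A (ρ x) i * B (ρ y) i) +
        ∑ j ∈ range N, (bit y j - bit x j) * l ^ j * ∑ i, A j i * B (ρ y) i := rfl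
    have hww : 1 ≤ (w y : ℝ) - w x := by linarith
    show 0 ≤ F x y ↔ Q (min (ρ x) (ρ y)) (max (ρ x) (ρ y))
    rw [hFe]
    constructor
    · intro h5
      by_contra h6
      have h7 := h1.2 h6
      rw [abs_of_neg h7] at h2
      have h8 : Ω * ((w y : ℝ) - w x) * (∑ i, A (ρ x) i * B (ρ y) i) ≤ -(Ω * ε) := by
        have h9 : Ω * ε ≤ Ω * ((w y : ℝ) - w x) * -(∑ i, A (ρ x) i * B (ρ y) i) := by
          calc Ω * ε = Ω * 1 * ε := by ring
            _ ≤ _ := by
                apply mul_le_mul _ h2 hε.le (by positivity)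
                exact mul_le_mul_of_nonneg_left hww hΩ0.le
        linarith
      rw [hΩε] at h8
      linarith
    · intro h5
      have h7 := h1.1 h5
      rw [abs_of_pos h7] at h2
      have h9 : Ω * ε ≤ Ω * ((w y : ℝ) - w x) * (∑ i, A (ρ x) i * B (ρ y) i) := by
        calc Ω * ε = Ω * 1 * ε := by ring
          _ ≤ _ := by
              apply mul_le_mul _ h2 hε.le (by positivity)
              exact mul_le_mul_of_nonneg_left hww hΩ0.le
      rw [hΩε] at h9
      linarith

end Run7.h64.SS
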