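import Pool.Agent.Run7.h64.SS.Mom

/-!
# Families of sign vectors all of whose small subfamilies are nearly orthogonal
-/

set_option autoImplicit false

namespace Run7.h64.SS

open Finset

section
variable {ι : Type} [Fintype ι] [DecidableEq ι]

theorem tail_low (m : ℕ) (U : ι → ℝ) (J : Finset ι) (hU : 0 < ∑ x ∈ J, U x ^ 2) :
    mn (fun b : Fin m → ι → Bool =>
      if ∑ l, lin U J (b l) ^ 2 < (m : ℝ) / 2 * ∑ x ∈ J, U x ^ 2 then (1 : ℝ) else 0) ≤
      Real.exp (-(m / 24)) := by
  set σ := ∑ x ∈ J, U x ^ 2 with hσ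
  have h1 : ∀ b : Fin m → ι → Bool,
      (if ∑ l, lin U J (b l) ^ 2 < (m : ℝ) / 2 * σ then (1 : ℝ) else 0) ≤
        Real.exp (m / 12) * ∏ l, Real.exp (-(lin U J (b l) ^ 2 / (6 * σ))) := by
    intro b
    rw [← Real.exp_sum, ← Real.exp_add]
    split_ifs with h
    · apply Real.one_le_exp
      rw [sum_neg_distrib, ← sum_div]
      have h2 : (∑ l, lin U J (b l) ^ 2) / (6 * σ) ≤ m / 12 := by
        rw [div_le_iff₀ (by positivity)]
        linarith
      linarith
    · exact (Real.exp_pos _).le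
  refine (mn_mono h1).trans ?_
  rw [mn_mul_left, mn_prod_const (fun g => Real.exp (-(lin U J g ^ 2 / (6 * σ)))),
    Fintype.card_fin]
  calc Real.exp (m / 12) * mn (fun g => Real.exp (-(lin U J g ^ 2 / (6 * σ)))) ^ m ≤
        Real.exp (m / 12) * Real.exp (-(1 / 8)) ^ m := by
        apply mul_le_mul_of_nonneg_left _ (Real.exp_pos _).le
        exact pow_le_pow_left₀ (mn_nonneg fun _ => (Real.exp_pos _).le) (mn_exp_neg U J hU) m
    _ = Real.exp (-(m / 24)) := by
        rw [← Real.exp_nat_mul, ← Real.exp_add]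
        congr 1
        ring

theorem tail_up (m : ℕ) (J : Finset ι) (hJ : 0 < J.card) :
    mn (fun b : Fin m → ι → Bool =>
      if 4 * (m : ℝ) * J.card < ∑ l, lin (fun _ => 1) J (b l) ^ 2 then (1 : ℝ) else 0) ≤
      Real.exp (-(m / 24)) := by
  set h : ℝ := (J.card : ℝ) with hh
  have h0 : 0 < h := by
    rw [hh]
    exact_mod_cast hJ
  have h1 : ∀ b : Fin m → ι → Bool,
      (if 4 * (m : ℝ) * h < ∑ l, lin (fun _ => 1) J (b l) ^ 2 then (1 : ℝ) else 0) ≤
        Real.exp (-(m / 2)) * ∏ l, Real.exp (1 / (8 * h) * lin (fun _ => 1) J (b l) ^ 2) := by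
    intro b
    rw [← Real.exp_sum, ← Real.exp_add]
    split_ifs with hc
    · apply Real.one_le_exp
      rw [← mul_sum]
      have h2 : (m : ℝ) / 2 = 1 / (8 * h) * (4 * m * h) := by
        field_simp
        ring
      have h3 : 1 / (8 * h) * (4 * m * h) ≤ 1 / (8 * h) * ∑ l, lin (fun _ => 1) J (b l) ^ 2 :=
        mul_le_mul_of_nonneg_left hc.le (by positivity)
      linarith
    · exact (Real.exp_pos _).le
  refine (mn_mono h1).trans ?_
  rw [mn_mul_left, mn_prod_const (fun g => Real.exp (1 / (8 * h) * lin (fun _ => 1) J g ^ 2)),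
    Fintype.card_fin]
  have h2 := mn_exp_sq J (1 / (8 * h)) (by positivity) (by
    rw [← hh]
    field_simp
    rfl)
  rw [← hh] at h2
  have h3 : 1 / (8 * h) * h * (1 + 4 * (1 / (8 * h) * h)) = 3 / 16 := by
    field_simp
    norm_num
  rw [h3] at h2
  calc Real.exp (-(m / 2)) * mn (fun g => Real.exp (1 / (8 * h) * lin (fun _ => 1) J g ^ 2)) ^ m ≤
        Real.exp (-(m / 2)) * Real.exp (3 / 16) ^ m := by
        apply mul_le_mul_of_nonneg_left _ (Real.exp_pos _).le
        exact pow_le_pow_left₀ (mn_nonneg fun _ => (Real.exp_pos _).le) h2 m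
    _ = Real.exp (-(m / 2) + m * (3 / 16)) := by
        rw [← Real.exp_nat_mul, ← Real.exp_add]
    _ ≤ _ := by
        apply Real.exp_le_exp.2
        have : (0 : ℝ) ≤ m := Nat.cast_nonneg m
        linarith

end

/-- The vectors `b · (v i)`, `i < h`, are nearly orthogonal. -/
def GoodAt {m h M : ℕ} (b : Fin m → Fin M → Bool) (v : Fin h → Fin M) : Prop :=
  (∀ c : Fin h → ℤ, (∀ i, |c i| ≤ 30) →
    (m : ℝ) / 2 * ∑ i, (c i : ℝ) ^ 2 ≤ ∑ l, (∑ i, (c i : ℝ) * sgn (b l (v i))) ^ 2) ∧
  ∑ l, (∑ i, sgn (b l (v i))) ^ 2 ≤ 4 * (m : ℝ) * h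

theorem lin_extend {h M : ℕ} {v : Fin h → Fin M} (hv : Function.Injective v) (c : Fin h → ℝ)
    (g : Fin M → Bool) : lin (Function.extend v c 0) (univ.image v) g = ∑ i, c i * sgn (g (v i)) := by
  classical
  unfold lin
  rw [sum_image fun a _ b _ h => hv h]
  refine sum_congr rfl fun i _ => ?_
  rw [hv.extend_apply]

theorem sq_extend {h M : ℕ} {v : Fin h → Fin M} (hv : Function.Injective v) (c : Fin h → ℝ) :
    ∑ x ∈ univ.image v, (Function.extend v c 0 x) ^ 2 = ∑ i, c i ^ 2 := by
  classical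
  rw [sum_image fun a _ b _ h => hv h]
  refine sum_congr rfl fun i _ => ?_
  rw [hv.extend_apply]

theorem exists_good (m h M : ℕ) (hh : 0 < h)
    (hm : (M : ℝ) ^ h * 61 ^ h * Real.exp (-(m / 24)) + (M : ℝ) ^ h * Real.exp (-(m / 24)) < 1) :
    ∃ b : Fin m → Fin M → Bool, ∀ v : Fin h → Fin M, Function.Injective v → GoodAt b v := by
  classical
  -- the coefficients
  let co : Fin 61 → ℤ := fun x => (x : ℤ) - 30
  let cr : (Fin h → Fin 61) → Fin h → ℝ := fun c i => (co (c i) : ℝ)
  let I1 : (Fin h → Fin M) → (Fin h → Fin 61) → (Fin m → Fin M → Bool) → ℝ := fun v c b =>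
    if Function.Injective v ∧ ∑ l, (∑ i, cr c i * sgn (b l (v i))) ^ 2 <
      (m : ℝ) / 2 * ∑ i, cr c i ^ 2 then 1 else 0
  let I2 : (Fin h → Fin M) → (Fin m → Fin M → Bool) → ℝ := fun v b =>
    if Function.Injective v ∧ 4 * (m : ℝ) * h < ∑ l, (∑ i, sgn (b l (v i))) ^ 2 then 1 else 0
  have hI1 : ∀ v c, mn (I1 v c) ≤ Real.exp (-(m / 24)) := by
    intro v c
    by_cases hv : Function.Injective v
    · by_cases hc : 0 < ∑ i, cr c i ^ 2
      · have h1 := tail_low m (Function.extend v (cr c) 0) (univ.image v)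
          (by rw [sq_extend hv]; exact hc)
        rw [sq_extend hv] at h1
        refine le_trans (le_of_eq ?_) h1
        congr 1
        ext b
        simp only [I1, hv, true_and, lin_extend hv]
      · have h0 : ∑ i, cr c i ^ 2 = 0 :=
          le_antisymm (not_lt.1 hc) (sum_nonneg fun i _ => sq_nonneg _)
        have h1 : I1 v c = fun _ => 0 := by
          ext b
          simp only [I1]
          rw [if_neg]
          rintro ⟨_, h2⟩
          rw [h0, mul_zero] at h2
          exact absurd h2 (not_lt.2 (sum_nonneg fun l _ => sq_nonneg _))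
        rw [h1, mn_const]
        exact (Real.exp_pos _).le
    · have h1 : I1 v c = fun _ => 0 := by
        ext b
        simp only [I1, hv, false_and, if_false]
      rw [h1, mn_const]
      exact (Real.exp_pos _).le
  have hI2 : ∀ v, mn (I2 v) ≤ Real.exp (-(m / 24)) := by
    intro v
    by_cases hv : Function.Injective v
    · have hcard : (univ.image v).card = h := by
        rw [card_image_of_injective _ hv, card_univ, Fintype.card_fin]
      have h1 := tail_up m (univ.image v) (by rw [hcard]; exact hh)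
      rw [hcard] at h1
      refine le_trans (le_of_eq ?_) h1
      congr 1
      ext b
      have h2 : ∀ g : Fin M → Bool, lin (fun _ => 1) (univ.image v) g = ∑ i, sgn (g (v i)) := by
        intro g
        unfold lin
        rw [sum_image fun a _ b _ h => hv h]
        simp only [one_mul]
      simp only [I2, hv, true_and, h2]
    · have h1 : I2 v = fun _ => 0 := by
        ext b
        simp only [I2, hv, false_and, if_false]
      rw [h1, mn_const]
      exact (Real.exp_pos _).le
  have hF : mn (fun b => ∑ v, ∑ c, I1 v c b + ∑ v, I2 v b) < 1 := by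
    rw [mn_add (fun b => ∑ v, ∑ c, I1 v c b) (fun b => ∑ v, I2 v b), mn_sum univ I2]
    have h1 : mn (fun b => ∑ v, ∑ c, I1 v c b) = ∑ v, ∑ c, mn (I1 v c) := by
      rw [mn_sum univ (fun v b => ∑ c, I1 v c b)]
      exact sum_congr rfl fun v _ => mn_sum univ (I1 v)
    rw [h1]
    refine lt_of_le_of_lt ?_ hm
    apply add_le_add
    · calc ∑ v, ∑ c, mn (I1 v c) ≤ ∑ _v : Fin h → Fin M, ∑ _c : Fin h → Fin 61,
            Real.exp (-(m / 24)) := sum_le_sum fun v _ => sum_le_sum fun c _ => hI1 v c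
        _ = _ := by
          simp only [sum_const, card_univ, Fintype.card_fun, Fintype.card_fin, nsmul_eq_mul]
          push_cast
          ring
    · calc ∑ v, mn (I2 v) ≤ ∑ _v : Fin h → Fin M, Real.exp (-(m / 24)) :=
            sum_le_sum fun v _ => hI2 v
        _ = _ := by
          simp only [sum_const, card_univ, Fintype.card_fun, Fintype.card_fin, nsmul_eq_mul]
          push_cast
          ring
  obtain ⟨b, hb⟩ := exists_lt_of_mn hF
  have hI1n : ∀ v c, 0 ≤ I1 v c b := fun v c => by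
    simp only [I1]
    split_ifs <;> norm_num
  have hI2n : ∀ v, 0 ≤ I2 v b := fun v => by
    simp only [I2]
    split_ifs <;> norm_num
  have hs1 : 0 ≤ ∑ v, ∑ c, I1 v c b := sum_nonneg fun v _ => sum_nonneg fun c _ => hI1n v c
  have hs2 : 0 ≤ ∑ v, I2 v b := sum_nonneg fun v _ => hI2n v
  refine ⟨b, fun v hv => ⟨?_, ?_⟩⟩
  · intro c hc
    by_contra hcon
    rw [not_le] at hcon
    let c' : Fin h → Fin 61 := fun i => ⟨(c i + 30).toNat, by
      have := abs_le.1 (hc i)
      omega⟩
    have hcc : ∀ i, cr c' i = (c i : ℝ) := by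
      intro i
      have := abs_le.1 (hc i)
      have h2 : (((c i + 30).toNat : ℕ) : ℤ) = c i + 30 := Int.toNat_of_nonneg (by omega)
      simp only [cr, co, c']
      rw [h2]
      push_cast
      ring
    have h1 : I1 v c' b = 1 := by
      simp only [I1]
      rw [if_pos]
      refine ⟨hv, ?_⟩
      simp only [hcc]
      exact hcon
    have h2 : I1 v c' b ≤ ∑ v, ∑ c, I1 v c b :=
      (single_le_sum (f := fun c => I1 v c b) (fun c _ => hI1n v c) (mem_univ c')).trans
        (single_le_sum (f := fun v => ∑ c, I1 v c b)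
          (fun v _ => sum_nonneg fun c _ => hI1n v c) (mem_univ v))
    linarith
  · by_contra hcon
    rw [not_le] at hcon
    have h1 : I2 v b = 1 := by
      simp only [I2]
      rw [if_pos ⟨hv, hcon⟩]
    have h2 : I2 v b ≤ ∑ v, I2 v b :=
      single_le_sum (f := fun v => I2 v b) (fun v _ => hI2n v) (mem_univ v)
    linarith

end Run7.h64.SS
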