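import Mathlib

/-!
# Means over finite sets
-/

set_option autoImplicit false

namespace Run7.h64.SS

open Finset

/-- the mean -/
noncomputable def mn {Ω : Type} [Fintype Ω] (F : Ω → ℝ) : ℝ := (∑ ω, F ω) / Fintype.card Ω

section
variable {Ω Ω' : Type} [Fintype Ω] [Fintype Ω']

theorem mn_add (F G : Ω → ℝ) : mn (fun ω => F ω + G ω) = mn F + mn G := by
  unfold mn
  rw [sum_add_distrib, add_div]

theorem mn_sub (F G : Ω → ℝ) : mn (fun ω => F ω - G ω) = mn F - mn G := by
  unfold mn
  rw [sum_sub_distrib, sub_div]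

theorem mn_mul_left (c : ℝ) (F : Ω → ℝ) : mn (fun ω => c * F ω) = c * mn F := by
  unfold mn
  rw [← mul_sum, mul_div_assoc]

theorem mn_sum {ι : Type} (s : Finset ι) (F : ι → Ω → ℝ) :
    mn (fun ω => ∑ i ∈ s, F i ω) = ∑ i ∈ s, mn (F i) := by
  unfold mn
  rw [sum_comm, sum_div]

theorem mn_mono {F G : Ω → ℝ} (h : ∀ ω, F ω ≤ G ω) : mn F ≤ mn G := by
  unfold mn
  exact div_le_div_of_nonneg_right (sum_le_sum fun ω _ => h ω) (Nat.cast_nonneg _)

theorem mn_nonneg {F : Ω → ℝ} (h : ∀ ω, 0 ≤ F ω) : 0 ≤ mn F := by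
  unfold mn
  exact div_nonneg (sum_nonneg fun ω _ => h ω) (Nat.cast_nonneg _)

theorem mn_const [Nonempty Ω] (c : ℝ) : mn (fun _ : Ω => c) = c := by
  unfold mn
  rw [sum_const, card_univ, nsmul_eq_mul]
  have : (Fintype.card Ω : ℝ) ≠ 0 := by exact_mod_cast Fintype.card_ne_zero
  field_simp

theorem mn_equiv (e : Ω ≃ Ω') (F : Ω' → ℝ) : mn (fun ω => F (e ω)) = mn F := by
  unfold mn
  rw [Equiv.sum_comp e F, Fintype.card_congr e]

theorem exists_lt_of_mn [Nonempty Ω] {F : Ω → ℝ} {c : ℝ} (h : mn F < c) : ∃ ω, F ω < c := by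
  by_contra hcon
  push Not at hcon
  have h1 : mn (fun _ : Ω => c) ≤ mn F := mn_mono hcon
  rw [mn_const] at h1
  linarith

/-- independence -/
theorem mn_prod {ι : Type} [Fintype ι] [DecidableEq ι] (f : ι → Ω → ℝ) :
    mn (fun ω : ι → Ω => ∏ i, f i (ω i)) = ∏ i, mn (f i) := by
  unfold mn
  rw [prod_div_distrib, Fintype.prod_sum, prod_const, card_univ, Fintype.card_fun]
  push_cast
  rfl

theorem mn_prod_const {ι : Type} [Fintype ι] [DecidableEq ι] (f : Ω → ℝ) :
    mn (fun ω : ι → Ω => ∏ i, f (ω i)) = mn f ^ Fintype.card ι := by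
  rw [mn_prod (fun _ => f), prod_const, card_univ]

/-- independence for some of the coordinates -/
theorem mn_prod_inj [Nonempty Ω] {ι κ : Type} [Fintype ι] [DecidableEq ι] [Fintype κ]
    (v : κ → ι) (hv : Function.Injective v) (f : Ω → ℝ) :
    mn (fun ω : ι → Ω => ∏ k, f (ω (v k))) = mn f ^ Fintype.card κ := by
  classical
  have h1 : ∀ ω : ι → Ω, ∏ k, f (ω (v k)) =
      ∏ i, (fun x => if i ∈ univ.image v then f x else 1) (ω i) := by
    intro ω
    rw [prod_ite, prod_const_one, mul_one]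
    rw [show univ.filter (fun i => i ∈ univ.image v) = univ.image v by
      ext i; simp]
    rw [prod_image (fun a _ b _ h => hv h)]
  simp_rw [h1]
  rw [mn_prod (fun i x => if i ∈ univ.image v then f x else 1)]
  have h2 : ∀ i, mn (fun x => if i ∈ univ.image v then f x else 1) =
      if i ∈ univ.image v then mn f else 1 := by
    intro i
    split_ifs
    · rfl
    · exact mn_const 1
  simp_rw [h2]
  rw [prod_ite, prod_const_one, mul_one, prod_const]
  rw [show univ.filter (fun i => i ∈ univ.image v) = univ.image v by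
    ext i; simp]
  rw [card_image_of_injective _ hv, card_univ]

end

/-- the sign of a bit -/
def sgn (b : Bool) : ℝ := if b then 1 else -1

theorem sgn_true : sgn true = 1 := rfl
theorem sgn_false : sgn false = -1 := rfl

theorem sgn_mul_self (b : Bool) : sgn b * sgn b = 1 := by
  cases b <;> simp [sgn]

theorem sgn_not (b : Bool) : sgn (!b) = - sgn b := by
  cases b <;> simp [sgn]

theorem abs_sgn (b : Bool) : |sgn b| = 1 := by
  cases b <;> simp [sgn]

theorem mn_bool (f : Bool → ℝ) : mn f = (f true + f false) / 2 := by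
  unfold mn
  rw [Fintype.sum_bool, Fintype.card_bool]
  norm_num

section
variable {ι : Type} [Fintype ι] [DecidableEq ι]

/-- product of cosines -/
theorem mn_cos (θ : ι → ℝ) :
    mn (fun ω : ι → Bool => Real.cos (∑ i, sgn (ω i) * θ i)) = ∏ i, Real.cos (θ i) := by
  have h1 : ∀ ω : ι → Bool, (Complex.exp ((∑ i, sgn (ω i) * θ i : ℝ) * Complex.I)) =
      ∏ i, Complex.exp ((sgn (ω i) * θ i : ℝ) * Complex.I) := by
    intro ω
    rw [← Complex.exp_sum]
    congr 1
    push_cast
    rw [sum_mul]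
  have h2 : ∑ ω : ι → Bool, Complex.exp ((∑ i, sgn (ω i) * θ i : ℝ) * Complex.I) =
      ∏ i, (2 * Complex.cos (θ i)) := by
    simp_rw [h1]
    rw [← Fintype.prod_sum (fun i b => Complex.exp ((sgn b * θ i : ℝ) * Complex.I))]
    refine prod_congr rfl fun i _ => ?_
    rw [Fintype.sum_bool, sgn_true, sgn_false, Complex.cos]
    push_cast
    ring_nf
  have h3 := congrArg Complex.re h2
  rw [Complex.re_sum] at h3
  simp_rw [Complex.exp_ofReal_mul_I_re] at h3
  unfold mn
  rw [h3]
  rw [Fintype.card_fun, Fintype.card_bool]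
  rw [prod_mul_distrib, prod_const, card_univ]
  have h4 : ((2 : ℂ) ^ Fintype.card ι * ∏ i, Complex.cos (θ i)).re =
      2 ^ Fintype.card ι * ∏ i, Real.cos (θ i) := by
    have : ((2 : ℂ) ^ Fintype.card ι * ∏ i, Complex.cos (θ i)) =
        ((2 ^ Fintype.card ι * ∏ i, Real.cos (θ i) : ℝ) : ℂ) := by
      push_cast
      rfl
    rw [this, Complex.ofReal_re]
  rw [h4]
  push_cast
  field_simp

/-- moment generating function -/
theorem mn_exp_le (θ : ι → ℝ) :
    mn (fun ω : ι → Bool => Real.exp (∑ i, sgn (ω i) * θ i)) ≤ Real.exp ((∑ i, θ i ^ 2) / 2) := by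
  have h1 : mn (fun ω : ι → Bool => Real.exp (∑ i, sgn (ω i) * θ i)) = ∏ i, Real.cosh (θ i) := by
    have h2 : ∀ ω : ι → Bool, Real.exp (∑ i, sgn (ω i) * θ i) =
        ∏ i, (fun i b => Real.exp (sgn b * θ i)) i (ω i) := fun ω => Real.exp_sum _ _
    simp_rw [h2]
    rw [mn_prod (fun i b => Real.exp (sgn b * θ i))]
    refine prod_congr rfl fun i _ => ?_
    rw [mn_bool, sgn_true, sgn_false, Real.cosh_eq]
    ring_nf
  rw [h1, sum_div, Real.exp_sum]
  exact prod_le_prod (fun i _ => (Real.cosh_pos _).le) fun i _ => Real.cosh_le_exp_half_sq _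

/-- flipping a bit -/
def flp (i : ι) (g : ι → Bool) : ι → Bool := Function.update g i (!g i)

theorem flp_flp (i : ι) (g : ι → Bool) : flp i (flp i g) = g := by
  unfold flp
  ext j
  by_cases h : j = i
  · subst h
    simp
  · simp [h]

theorem flp_self (i : ι) (g : ι → Bool) : flp i g i = !g i := by simp [flp]

theorem flp_of_ne {i j : ι} (h : j ≠ i) (g : ι → Bool) : flp i g j = g j := by simp [flp, h]

theorem mn_flp (i : ι) (F : (ι → Bool) → ℝ) : mn (fun g => F (flp i g)) = mn F :=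
  mn_equiv ⟨flp i, flp i, flp_flp i, flp_flp i⟩ F

/-- averaging over one bit -/
theorem mn_half (i : ι) (F : (ι → Bool) → ℝ) :
    mn F = mn (fun g => (F g + F (flp i g)) / 2) := by
  have h1 : mn (fun g => (F g + F (flp i g)) / 2) = (1 / 2) * (mn F + mn (fun g => F (flp i g))) := by
    rw [← mn_add, ← mn_mul_left]
    congr 1
    ext g
    ring
  rw [h1, mn_flp]
  ring

end

end Run7.h64.SS
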