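import Pool.Agent.Run7.h64.SS.Mean

/-!
# Moments of linear forms in random signs
-/

set_option autoImplicit false

namespace Run7.h64.SS

open Finset

section
variable {ι : Type} [Fintype ι] [DecidableEq ι]

/-- linear forms -/
def lin (U : ι → ℝ) (J : Finset ι) (g : ι → Bool) : ℝ := ∑ x ∈ J, U x * sgn (g x)

theorem lin_insert (U : ι → ℝ) {J : Finset ι} {i : ι} (hi : i ∉ J) (g : ι → Bool) :
    lin U (insert i J) g = U i * sgn (g i) + lin U J g := by
  unfold lin
  rw [sum_insert hi]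

theorem lin_flp (U : ι → ℝ) {J : Finset ι} {i : ι} (hi : i ∉ J) (g : ι → Bool) :
    lin U J (flp i g) = lin U J g := by
  unfold lin
  refine sum_congr rfl fun x hx => ?_
  have hne : x ≠ i := by
    rintro rfl
    exact hi hx
  rw [flp_of_ne hne]

theorem mn_sq (U : ι → ℝ) (J : Finset ι) : mn (fun g => lin U J g ^ 2) = ∑ x ∈ J, U x ^ 2 := by
  induction J using Finset.induction_on with
  | empty =>
    simp only [lin, sum_empty]
    rw [show (fun _ : ι → Bool => (0 : ℝ) ^ 2) = fun _ => 0 by ext; norm_num]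
    exact mn_const 0
  | insert i J hi ih =>
    rw [mn_half i]
    have h : ∀ g : ι → Bool, (lin U (insert i J) g ^ 2 + lin U (insert i J) (flp i g) ^ 2) / 2 =
        lin U J g ^ 2 + U i ^ 2 := by
      intro g
      rw [lin_insert U hi, lin_insert U hi, lin_flp U hi, flp_self, sgn_not]
      have h1 := sgn_mul_self (g i)
      calc ((U i * sgn (g i) + lin U J g) ^ 2 + (U i * -sgn (g i) + lin U J g) ^ 2) / 2 =
            lin U J g ^ 2 + U i ^ 2 * (sgn (g i) * sgn (g i)) := by ring
        _ = _ := by rw [h1, mul_one]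
    simp_rw [h]
    rw [mn_add, ih, mn_const, sum_insert hi]
    ring

theorem mn_four (U : ι → ℝ) (J : Finset ι) :
    mn (fun g => lin U J g ^ 4) ≤ 3 * (∑ x ∈ J, U x ^ 2) ^ 2 := by
  induction J using Finset.induction_on with
  | empty =>
    simp only [lin, sum_empty]
    rw [show (fun _ : ι → Bool => (0 : ℝ) ^ 4) = fun _ => 0 by ext; norm_num, mn_const]
    norm_num
  | insert i J hi ih =>
    rw [mn_half i]
    have h : ∀ g : ι → Bool, (lin U (insert i J) g ^ 4 + lin U (insert i J) (flp i g) ^ 4) / 2 =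
        lin U J g ^ 4 + ((6 * U i ^ 2) * lin U J g ^ 2 + U i ^ 4) := by
      intro g
      rw [lin_insert U hi, lin_insert U hi, lin_flp U hi, flp_self, sgn_not]
      have h1 := sgn_mul_self (g i)
      calc ((U i * sgn (g i) + lin U J g) ^ 4 + (U i * -sgn (g i) + lin U J g) ^ 4) / 2 =
            lin U J g ^ 4 + ((6 * U i ^ 2 * (sgn (g i) * sgn (g i))) * lin U J g ^ 2 +
              U i ^ 4 * ((sgn (g i) * sgn (g i)) * (sgn (g i) * sgn (g i)))) := by ring
        _ = _ := by rw [h1]; ring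
    simp_rw [h]
    rw [mn_add, mn_add, mn_mul_left, mn_const, mn_sq, sum_insert hi]
    have h2 : 0 ≤ ∑ x ∈ J, U x ^ 2 := sum_nonneg fun x _ => sq_nonneg _
    have h3 : 0 ≤ U i ^ 4 := by positivity
    nlinarith

/-- lower tail -/
theorem mn_exp_neg (U : ι → ℝ) (J : Finset ι) (hU : 0 < ∑ x ∈ J, U x ^ 2) :
    mn (fun g => Real.exp (-(lin U J g ^ 2 / (6 * ∑ x ∈ J, U x ^ 2)))) ≤ Real.exp (-(1 / 8)) := by
  set σ := ∑ x ∈ J, U x ^ 2 with hσ
  have h1 : ∀ g : ι → Bool, Real.exp (-(lin U J g ^ 2 / (6 * σ))) ≤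
      1 - (1 / (6 * σ)) * lin U J g ^ 2 + (1 / (72 * σ ^ 2)) * lin U J g ^ 4 := by
    intro g
    have h2 : ∀ x : ℝ, 0 ≤ x → Real.exp (-x) ≤ 1 - x + x ^ 2 / 2 := by
      intro x hx
      have h3 := Real.quadratic_le_exp_of_nonneg hx
      have h4 : 0 < 1 + x + x ^ 2 / 2 := by positivity
      rw [Real.exp_neg]
      have h5 : (Real.exp x)⁻¹ ≤ (1 + x + x ^ 2 / 2)⁻¹ := inv_anti₀ h4 h3
      refine h5.trans ?_
      rw [inv_le_iff_one_le_mul₀ h4]
      nlinarith [mul_nonneg hx (mul_nonneg hx (mul_nonneg hx hx)), sq_nonneg x]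
    have h3 := h2 (lin U J g ^ 2 / (6 * σ)) (by positivity)
    refine h3.trans (le_of_eq ?_)
    field_simp
    ring
  refine (mn_mono h1).trans ?_
  have h2 : mn (fun g : ι → Bool => 1 - (1 / (6 * σ)) * lin U J g ^ 2 +
      (1 / (72 * σ ^ 2)) * lin U J g ^ 4) = 1 - 1 / (6 * σ) * σ +
        1 / (72 * σ ^ 2) * mn (fun g => lin U J g ^ 4) := by
    rw [mn_add, mn_sub, mn_mul_left, mn_mul_left, mn_const, mn_sq]
  rw [h2]
  have h3 := mn_four U J
  rw [← hσ] at h3
  have h4 : 1 / (72 * σ ^ 2) * mn (fun g => lin U J g ^ 4) ≤ 1 / (72 * σ ^ 2) * (3 * σ ^ 2) :=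
    mul_le_mul_of_nonneg_left h3 (by positivity)
  have h5 : 1 / (72 * σ ^ 2) * (3 * σ ^ 2) = 1 / 24 := by
    field_simp
    norm_num
  have h6 : 1 / (6 * σ) * σ = 1 / 6 := by
    field_simp
  rw [h6]
  rw [h5] at h4
  have h7 := Real.add_one_le_exp (-(1 / 8) : ℝ)
  linarith

/-- upper tail -/
theorem mn_exp_sq (J : Finset ι) : ∀ l : ℝ, 0 ≤ l → 8 * l * J.card ≤ 1 →
    mn (fun g => Real.exp (l * lin (fun _ => 1) J g ^ 2)) ≤
      Real.exp (l * J.card * (1 + 4 * (l * J.card))) := by
  induction J using Finset.induction_on with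
  | empty =>
    intro l _ _
    simp only [lin, sum_empty, card_empty, Nat.cast_zero, mul_zero, zero_mul, Real.exp_zero]
    rw [show (fun _ : ι → Bool => Real.exp (l * (0 : ℝ) ^ 2)) = fun _ => 1 by ext; norm_num,
      mn_const]
  | insert i J hi ih =>
    intro l hl hc
    rw [card_insert_of_notMem hi] at hc ⊢
    push_cast at hc ⊢
    set k : ℝ := (J.card : ℝ) with hk
    have hk0 : 0 ≤ k := Nat.cast_nonneg _
    set l' := l * (1 + 2 * l) with hl'
    have hl'0 : 0 ≤ l' := by positivity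
    have hl8 : l ≤ 1 / 8 := by nlinarith
    have hc' : 8 * l' * k ≤ 1 := by
      rw [hl']
      have h1 : 8 * l * k ≤ 1 - 8 * l := by linarith
      nlinarith
    have h1 := ih l' hl'0 hc'
    rw [mn_half i]
    have h2 : ∀ g : ι → Bool, (Real.exp (l * lin (fun _ => 1) (insert i J) g ^ 2) +
        Real.exp (l * lin (fun _ => 1) (insert i J) (flp i g) ^ 2)) / 2 ≤
        Real.exp l * Real.exp (l' * lin (fun _ => 1) J g ^ 2) := by
      intro g
      rw [lin_insert _ hi, lin_insert _ hi, lin_flp _ hi, flp_self, sgn_not]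
      set S := lin (fun _ => (1 : ℝ)) J g with hS
      have h3 := sgn_mul_self (g i)
      have e1 : l * (1 * sgn (g i) + S) ^ 2 = l * (S ^ 2 + 1) + 2 * l * S * sgn (g i) := by
        have : (1 * sgn (g i) + S) ^ 2 = S ^ 2 + sgn (g i) * sgn (g i) + 2 * S * sgn (g i) := by ring
        rw [this, h3]
        ring
      have e2 : l * (1 * -sgn (g i) + S) ^ 2 = l * (S ^ 2 + 1) + -(2 * l * S * sgn (g i)) := by
        have : (1 * -sgn (g i) + S) ^ 2 = S ^ 2 + sgn (g i) * sgn (g i) - 2 * S * sgn (g i) := by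
          ring
        rw [this, h3]
        ring
      rw [e1, e2, Real.exp_add, Real.exp_add, ← mul_add, mul_div_assoc, ← Real.cosh_eq,
        ← Real.exp_add]
      have h4 := Real.cosh_le_exp_half_sq (2 * l * S * sgn (g i))
      calc Real.exp (l * (S ^ 2 + 1)) * Real.cosh (2 * l * S * sgn (g i)) ≤
            Real.exp (l * (S ^ 2 + 1)) * Real.exp ((2 * l * S * sgn (g i)) ^ 2 / 2) :=
            mul_le_mul_of_nonneg_left h4 (Real.exp_pos _).le
        _ = Real.exp (l + l' * S ^ 2) := by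
            rw [← Real.exp_add]
            congr 1
            have : (2 * l * S * sgn (g i)) ^ 2 = 4 * l ^ 2 * S ^ 2 * (sgn (g i) * sgn (g i)) := by
              ring
            rw [this, h3, hl']
            ring
    refine (mn_mono h2).trans ?_
    rw [mn_mul_left]
    calc Real.exp l * mn (fun g => Real.exp (l' * lin (fun _ => 1) J g ^ 2)) ≤
          Real.exp l * Real.exp (l' * k * (1 + 4 * (l' * k))) :=
          mul_le_mul_of_nonneg_left h1 (Real.exp_pos _).le
      _ = Real.exp (l + l' * k * (1 + 4 * (l' * k))) := by rw [← Real.exp_add]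
      _ ≤ _ := by
          apply Real.exp_le_exp.2
          have h5 : l + l' * k * (1 + 4 * (l' * k)) =
              l * (k + 1) + 2 * l ^ 2 * k + 4 * l ^ 2 * k ^ 2 +
                4 * l ^ 2 * k * ((4 * l * k) * (1 + l)) := by
            rw [hl']
            ring
          have h6 : l * (k + 1) * (1 + 4 * (l * (k + 1))) =
              l * (k + 1) + 4 * l ^ 2 * k ^ 2 + 4 * l ^ 2 * (2 * k + 1) := by ring
          rw [h5, h6]
          have h7 : (4 * l * k) * (1 + l) ≤ 1 := by
            have : 8 * l * k ≤ 1 := by nlinarith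
            nlinarith
          have h8 : 0 ≤ 4 * l ^ 2 * k := by positivity
          have h9 : 4 * l ^ 2 * k * ((4 * l * k) * (1 + l)) ≤ 4 * l ^ 2 * k * 1 :=
            mul_le_mul_of_nonneg_left h7 h8
          nlinarith

end

end Run7.h64.SS
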