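import Pool.Agent.Run7.h64.SS.Good

/-!
# The probability of an orthant
-/

set_option autoImplicit false

namespace Run7.h64.SS

open Finset

theorem cos_le_exp {t : ℝ} (ht : |t| ≤ 1) : Real.cos t ≤ Real.exp (-(2 / 5 * t ^ 2)) := by
  have h1 := abs_le.1 (Real.cos_bound ht)
  have h2 : |t| ^ 4 ≤ t ^ 2 := by
    have h3 : |t| ^ 2 ≤ 1 := pow_le_one₀ (abs_nonneg t) ht
    calc |t| ^ 4 = |t| ^ 2 * |t| ^ 2 := by ring
      _ ≤ |t| ^ 2 * 1 := mul_le_mul_of_nonneg_left h3 (by positivity)
      _ = t ^ 2 := by rw [mul_one, sq_abs]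
  have h3 := Real.add_one_le_exp (-(2 / 5 * t ^ 2))
  have h4 := sq_nonneg t
  nlinarith [h1.2]

/-- the kernel -/
noncomputable def phi (y : ℝ) : ℝ := ∏ p : Fin 4 × Bool, Real.cos (2 ^ (p.1 : ℕ) * y)

theorem phi_eq (y : ℝ) : phi y = ∏ k : Fin 4, Real.cos (2 ^ (k : ℕ) * y) ^ 2 := by
  unfold phi
  rw [Fintype.prod_prod_type]
  refine prod_congr rfl fun k _ => ?_
  rw [Fintype.prod_bool, sq]

theorem phi_nonneg (y : ℝ) : 0 ≤ phi y := by
  rw [phi_eq]
  exact prod_nonneg fun k _ => sq_nonneg _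

theorem phi_ge {y : ℝ} (hy : |y| ≤ 1 / 14) : 1 / 2 ≤ phi y := by
  have hy2 : y ^ 2 ≤ 1 / 196 := by
    rw [← sq_abs]
    calc |y| ^ 2 ≤ (1 / 14) ^ 2 := pow_le_pow_left₀ (abs_nonneg y) hy 2
      _ = 1 / 196 := by norm_num
  have hc : ∀ t : ℝ, 1 - t ^ 2 ≤ Real.cos t ^ 2 := by
    intro t
    have h1 := Real.sin_sq_add_cos_sq t
    have h2 : Real.sin t ^ 2 ≤ t ^ 2 := by
      rw [← sq_abs (Real.sin t), ← sq_abs t]
      exact pow_le_pow_left₀ (abs_nonneg _) Real.abs_sin_le_abs 2
    linarith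
  rw [phi_eq, Fin.prod_univ_four]
  have e0 : (2 : ℝ) ^ ((0 : Fin 4) : ℕ) * y = y := by norm_num
  have e1 : (2 : ℝ) ^ ((1 : Fin 4) : ℕ) * y = 2 * y := by norm_num
  have e2 : (2 : ℝ) ^ ((2 : Fin 4) : ℕ) * y = 4 * y := by norm_num
  have e3 : (2 : ℝ) ^ ((3 : Fin 4) : ℕ) * y = 8 * y := by norm_num
  rw [e0, e1, e2, e3]
  have h0 := hc y
  have h1 := hc (2 * y)
  have h2 := hc (4 * y)
  have h3 := hc (8 * y)
  set s := y ^ 2 with hs
  have hs0 : 0 ≤ s := sq_nonneg y
  have g1 : (1 - 4 * s) ≤ Real.cos (2 * y) ^ 2 := by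
    have : (2 * y) ^ 2 = 4 * s := by rw [hs]; ring
    linarith
  have g2 : (1 - 16 * s) ≤ Real.cos (4 * y) ^ 2 := by
    have : (4 * y) ^ 2 = 16 * s := by rw [hs]; ring
    linarith
  have g3 : (1 - 64 * s) ≤ Real.cos (8 * y) ^ 2 := by
    have : (8 * y) ^ 2 = 64 * s := by rw [hs]; ring
    linarith
  calc (1 : ℝ) / 2 ≤ (1 - 5 * s) * (1 - 80 * s) := by nlinarith
    _ ≤ ((1 - s) * (1 - 4 * s)) * ((1 - 16 * s) * (1 - 64 * s)) := by
        apply mul_le_mul
        · nlinarith
        · nlinarith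
        · linarith
        · nlinarith
    _ ≤ (Real.cos y ^ 2 * Real.cos (2 * y) ^ 2) *
          (Real.cos (4 * y) ^ 2 * Real.cos (8 * y) ^ 2) := by
        apply mul_le_mul
        · exact mul_le_mul h0 g1 (by linarith) (sq_nonneg _)
        · exact mul_le_mul g2 g3 (by linarith) (sq_nonneg _)
        · exact mul_nonneg (by linarith) (by linarith)
        · positivity
    _ = _ := by ring

/-- integer version of the sign -/
def sgz (b : Bool) : ℤ := if b then 1 else -1

theorem sgz_cast (b : Bool) : ((sgz b : ℤ) : ℝ) = sgn b := by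
  cases b <;> simp [sgz, sgn]

/-- the random coefficient -/
def half (s : Fin 4 → Bool) : ℤ := ∑ k, sgz (s k) * 2 ^ (k : ℕ)

theorem half_inj : ∀ s t : Fin 4 → Bool, half s = half t → s = t := by decide

theorem half_le : ∀ s : Fin 4 → Bool, |half s| ≤ 15 := by decide

/-- the random coefficient -/
def coef (ω : Fin 4 × Bool → Bool) : ℤ := ∑ p : Fin 4 × Bool, sgz (ω p) * 2 ^ (p.1 : ℕ)

theorem coef_eq (ω : Fin 4 × Bool → Bool) :
    coef ω = half (fun k => ω (k, true)) + half (fun k => ω (k, false)) := by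
  unfold coef half
  rw [Fintype.sum_prod_type, ← sum_add_distrib]
  refine sum_congr rfl fun k _ => ?_
  rw [Fintype.sum_bool]

theorem coef_le (ω : Fin 4 × Bool → Bool) : |coef ω| ≤ 30 := by
  rw [coef_eq]
  have h1 := half_le (fun k => ω (k, true))
  have h2 := half_le (fun k => ω (k, false))
  have h3 := abs_add_le (half fun k => ω (k, true)) (half fun k => ω (k, false))
  omega

/-- pairs of halves -/
def halves : (Fin 4 × Bool → Bool) ≃ (Fin 4 → Bool) × (Fin 4 → Bool) where
  toFun ω := (fun k => ω (k, true), fun k => ω (k, false))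
  invFun q p := if p.2 = true then q.1 p.1 else q.2 p.1
  left_inv ω := by
    ext ⟨k, b⟩
    cases b <;> simp
  right_inv q := by
    ext k <;> simp

theorem mn_coef : mn (fun ω => Real.exp (-(5 * (coef ω : ℝ) ^ 2))) ≤ 1 / 14 := by
  have h1 : ∑ ω, Real.exp (-(5 * (coef ω : ℝ) ^ 2)) =
      ∑ s : Fin 4 → Bool, ∑ t : Fin 4 → Bool,
        Real.exp (-(5 * ((half s : ℝ) + half t) ^ 2)) := by
    rw [← Fintype.sum_prod_type', ← Equiv.sum_comp halves]
    refine sum_congr rfl fun ω _ => ?_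
    rw [coef_eq]
    simp only [halves, Equiv.coe_fn_mk]
    push_cast
    rfl
  have h5 : Real.exp (-5) ≤ 0.0075 := by
    have h2 : (2.7 : ℝ) ^ 5 ≤ Real.exp 1 ^ 5 := by
      apply pow_le_pow_left₀ (by norm_num)
      have := Real.exp_one_gt_d9
      linarith
    have h3 : Real.exp 1 ^ 5 = Real.exp 5 := by
      rw [← Real.exp_nat_mul]
      norm_num
    rw [h3] at h2
    rw [Real.exp_neg]
    calc (Real.exp 5)⁻¹ ≤ ((2.7 : ℝ) ^ 5)⁻¹ := inv_anti₀ (by norm_num) h2
      _ ≤ 0.0075 := by norm_num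
  have h2 : ∀ s : Fin 4 → Bool, ∑ t : Fin 4 → Bool,
      Real.exp (-(5 * ((half s : ℝ) + half t) ^ 2)) ≤ 1.12 := by
    intro s
    have h3 : ∀ t : Fin 4 → Bool, Real.exp (-(5 * ((half s : ℝ) + half t) ^ 2)) ≤
        if half s + half t = 0 then 1 else 0.0075 := by
      intro t
      split_ifs with h
      · apply Real.exp_le_one_iff.2
        have := sq_nonneg ((half s : ℝ) + half t)
        linarith
      · refine le_trans (Real.exp_le_exp.2 ?_) h5
        have h4 : 1 ≤ (half s + half t) ^ 2 := by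
          have : 0 < (half s + half t) ^ 2 := by positivity
          omega
        have h6 : (1 : ℝ) ≤ ((half s : ℝ) + half t) ^ 2 := by exact_mod_cast h4
        linarith
    refine (sum_le_sum fun t _ => h3 t).trans ?_
    rw [sum_ite]
    simp only [sum_const, nsmul_eq_mul, mul_one]
    have h4 : (univ.filter fun t : Fin 4 → Bool => half s + half t = 0).card ≤ 1 := by
      rw [card_le_one]
      intro t ht t' ht'
      have e1 := (mem_filter.1 ht).2
      have e2 := (mem_filter.1 ht').2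
      exact half_inj t t' (by omega)
    have h6 : (univ.filter fun t : Fin 4 → Bool => ¬ half s + half t = 0).card ≤ 16 := by
      refine (card_le_univ _).trans ?_
      rw [Fintype.card_fun, Fintype.card_bool, Fintype.card_fin]
      norm_num
    have h7 : ((univ.filter fun t : Fin 4 → Bool => half s + half t = 0).card : ℝ) ≤ 1 := by
      exact_mod_cast h4
    have h8 : ((univ.filter fun t : Fin 4 → Bool => ¬ half s + half t = 0).card : ℝ) ≤ 16 := by
      exact_mod_cast h6
    linarith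
  unfold mn
  rw [h1]
  have h3 : ∑ s : Fin 4 → Bool, ∑ t : Fin 4 → Bool,
      Real.exp (-(5 * ((half s : ℝ) + half t) ^ 2)) ≤ 16 * 1.12 := by
    refine (sum_le_sum fun s _ => h2 s).trans ?_
    simp only [sum_const, card_univ, Fintype.card_fun, Fintype.card_bool, Fintype.card_fin,
      nsmul_eq_mul]
    norm_num
  have h4 : (Fintype.card (Fin 4 × Bool → Bool) : ℝ) = 256 := by
    simp only [Fintype.card_fun, Fintype.card_bool, Fintype.card_prod, Fintype.card_fin]
    norm_num
  rw [h4, div_le_iff₀ (by norm_num)]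
  linarith

theorem mn_comm {Ω Ω' : Type} [Fintype Ω] [Fintype Ω'] (F : Ω → Ω' → ℝ) :
    mn (fun ω => mn (F ω)) = mn (fun ω' => mn fun ω => F ω ω') := by
  unfold mn
  rw [← sum_div, ← sum_div, sum_comm, div_div, div_div, mul_comm]

/-- the scalar product -/
def XX {m h M : ℕ} (b : Fin m → Fin M → Bool) (v : Fin h → Fin M) (a : Fin m → Bool) (i : Fin h) :
    ℝ := ∑ l, sgn (a l) * sgn (b l (v i))

theorem small_ball {m h M : ℕ} {b : Fin m → Fin M → Bool} {v : Fin h → Fin M}
    (hg : GoodAt b v) (hm0 : 0 < m) (hm : 150 * (h : ℝ) ≤ Real.sqrt m) (T : Finset (Fin h)) :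
    mn (fun a => ∏ i ∈ T, phi (5 / Real.sqrt m * XX b v a i)) ≤ (1 / 14) ^ T.card := by
  classical
  have hmr : (0 : ℝ) < m := by exact_mod_cast hm0
  set r := Real.sqrt m with hr
  have hr0 : 0 < r := Real.sqrt_pos.2 hmr
  have hrr : r ^ 2 = m := Real.sq_sqrt hmr.le
  set y := 5 / r with hy
  let κ := {i // i ∈ T}
  let c : (κ × (Fin 4 × Bool) → Bool) → Fin h → ℤ := fun ω i =>
    if hi : i ∈ T then coef (fun p => ω (⟨i, hi⟩, p)) else 0
  have hcle : ∀ ω i, |c ω i| ≤ 30 := by
    intro ω i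
    simp only [c]
    split_ifs
    · exact coef_le _
    · simp
  let TT : (κ × (Fin 4 × Bool) → Bool) → Fin m → ℝ := fun ω l =>
    ∑ i, (c ω i : ℝ) * sgn (b l (v i))
  -- the product of the kernels
  have h1 : ∀ a, ∏ i ∈ T, phi (y * XX b v a i) =
      mn (fun ω : κ × (Fin 4 × Bool) → Bool => Real.cos (∑ l, sgn (a l) * (y * TT ω l))) := by
    intro a
    rw [← prod_coe_sort T (fun i => phi (y * XX b v a i))]
    unfold phi
    rw [← Fintype.prod_prod_type' (fun (i : κ) (p : Fin 4 × Bool) =>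
      Real.cos (2 ^ (p.1 : ℕ) * (y * XX b v a i)))]
    rw [← mn_cos (fun z : κ × (Fin 4 × Bool) => 2 ^ (z.2.1 : ℕ) * (y * XX b v a z.1))]
    congr 1
    ext ω
    congr 1
    rw [Fintype.sum_prod_type]
    have e1 : ∀ i : κ, ∑ p : Fin 4 × Bool, sgn (ω (i, p)) * (2 ^ (p.1 : ℕ) * (y * XX b v a i)) =
        (c ω i : ℝ) * (y * XX b v a i) := by
      intro i
      have e2 : c ω i = coef (fun p => ω (i, p)) := by
        simp only [c]
        rw [dif_pos i.2]
      rw [e2]
      unfold coef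
      push_cast
      rw [sum_mul]
      refine sum_congr rfl fun p _ => ?_
      rw [sgz_cast]
      ring
    simp_rw [e1]
    have e3 : ∑ i : κ, (c ω i : ℝ) * (y * XX b v a i) =
        ∑ i : Fin h, (c ω i : ℝ) * (y * XX b v a i) := by
      rw [sum_coe_sort T (fun i => (c ω i : ℝ) * (y * XX b v a i))]
      apply sum_subset (subset_univ _)
      intro i _ hi
      simp only [c]
      rw [dif_neg hi]
      simp
    rw [e3]
    unfold XX
    simp only [TT, mul_sum]
    rw [sum_comm]
    refine sum_congr rfl fun l _ => sum_congr rfl fun i _ => ?_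
    ring
  simp_rw [h1]
  rw [mn_comm]
  have h2 : ∀ ω : κ × (Fin 4 × Bool) → Bool,
      mn (fun a : Fin m → Bool => Real.cos (∑ l, sgn (a l) * (y * TT ω l))) ≤
        ∏ i : κ, Real.exp (-(5 * (coef (fun p => ω (i, p)) : ℝ) ^ 2)) := by
    intro ω
    rw [mn_cos]
    have h3 : ∀ l, |y * TT ω l| ≤ 1 := by
      intro l
      have h4 : |TT ω l| ≤ 30 * h := by
        simp only [TT]
        calc |∑ i, (c ω i : ℝ) * sgn (b l (v i))| ≤ ∑ i, |(c ω i : ℝ) * sgn (b l (v i))| :=
              abs_sum_le_sum_abs _ _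
          _ ≤ ∑ _i : Fin h, (30 : ℝ) := by
              refine sum_le_sum fun i _ => ?_
              rw [abs_mul, abs_sgn, mul_one]
              exact_mod_cast hcle ω i
          _ = 30 * h := by simp [mul_comm]
      rw [abs_mul, abs_of_pos (show 0 < y by positivity), hy, div_mul_eq_mul_div, div_le_one hr0]
      linarith
    have h4 : ∏ l, Real.cos (y * TT ω l) ≤ ∏ l, Real.exp (-(2 / 5 * (y * TT ω l) ^ 2)) :=
      prod_le_prod (fun l _ => (Real.cos_pos_of_le_one (h3 l)).le) fun l _ => cos_le_exp (h3 l)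
    refine h4.trans ?_
    rw [← Real.exp_sum, ← Real.exp_sum]
    apply Real.exp_le_exp.2
    rw [sum_neg_distrib, sum_neg_distrib]
    apply neg_le_neg
    have h5 := hg.1 (c ω) (hcle ω)
    have h6 : ∑ l, 2 / 5 * (y * TT ω l) ^ 2 = 2 / 5 * y ^ 2 * ∑ l, TT ω l ^ 2 := by
      rw [mul_sum]
      exact sum_congr rfl fun l _ => by ring
    rw [h6]
    have h7 : ∑ i : κ, 5 * (coef (fun p => ω (i, p)) : ℝ) ^ 2 = 5 * ∑ i, (c ω i : ℝ) ^ 2 := by
      rw [← mul_sum]
      congr 1
      have e1 : ∀ i : κ, (coef (fun p => ω (i, p)) : ℝ) ^ 2 = (c ω i : ℝ) ^ 2 := by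
        intro i
        simp only [c]
        rw [dif_pos i.2]
      simp_rw [e1]
      rw [sum_coe_sort T (fun i => (c ω i : ℝ) ^ 2)]
      apply sum_subset (subset_univ _)
      intro i _ hi
      simp only [c]
      rw [dif_neg hi]
      simp
    rw [h7]
    have h8 : 2 / 5 * y ^ 2 * ((m : ℝ) / 2 * ∑ i, (c ω i : ℝ) ^ 2) = 5 * ∑ i, (c ω i : ℝ) ^ 2 := by
      rw [hy, div_pow, hrr]
      field_simp
    rw [← h8]
    exact mul_le_mul_of_nonneg_left h5 (by positivity)
  refine (mn_mono h2).trans ?_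
  have h3 : mn (fun ω : κ × (Fin 4 × Bool) → Bool =>
      ∏ i : κ, Real.exp (-(5 * (coef (fun p => ω (i, p)) : ℝ) ^ 2))) =
      mn (fun ω' : κ → (Fin 4 × Bool → Bool) => ∏ i : κ, Real.exp (-(5 * (coef (ω' i) : ℝ) ^ 2))) :=
    mn_equiv (Equiv.curry κ (Fin 4 × Bool) Bool)
      (fun ω' : κ → (Fin 4 × Bool → Bool) => ∏ i : κ, Real.exp (-(5 * (coef (ω' i) : ℝ) ^ 2)))
  rw [h3, mn_prod_const (fun ω => Real.exp (-(5 * (coef ω : ℝ) ^ 2)))]
  have h4 : Fintype.card κ = T.card := Fintype.card_coe T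
  rw [h4]
  exact pow_le_pow_left₀ (mn_nonneg fun _ => (Real.exp_pos _).le) mn_coef _

theorem exp_sum_le {m h M : ℕ} {b : Fin m → Fin M → Bool} {v : Fin h → Fin M}
    (hg : GoodAt b v) (θ : ℝ) :
    mn (fun a => Real.exp (θ * ∑ i, XX b v a i)) ≤ Real.exp (2 * θ ^ 2 * m * h) := by
  have h1 : ∀ a, θ * ∑ i, XX b v a i =
      ∑ l, sgn (a l) * (θ * ∑ i, sgn (b l (v i))) := by
    intro a
    unfold XX
    rw [sum_comm, mul_sum]
    refine sum_congr rfl fun l _ => ?_
    rw [← mul_sum]
    ring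
  simp_rw [h1]
  refine (mn_exp_le _).trans (Real.exp_le_exp.2 ?_)
  have h2 := hg.2
  have h3 : ∑ l, (θ * ∑ i, sgn (b l (v i))) ^ 2 = θ ^ 2 * ∑ l, (∑ i, sgn (b l (v i))) ^ 2 := by
    rw [mul_sum]
    exact sum_congr rfl fun l _ => by ring
  rw [h3]
  have h4 : θ ^ 2 * ∑ l, (∑ i, sgn (b l (v i))) ^ 2 ≤ θ ^ 2 * (4 * (m : ℝ) * h) :=
    mul_le_mul_of_nonneg_left h2 (sq_nonneg θ)
  linarith

/-- The probability of an orthant. -/
theorem orthant {m w M : ℕ} {b : Fin m → Fin M → Bool} {v : Fin (2 * w) → Fin M}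
    (hg : GoodAt b v) (hw : 0 < w) (hm0 : 0 < m) (hm : 150 * ((2 * w : ℕ) : ℝ) ≤ Real.sqrt m) :
    mn (fun a => if ∀ i, 0 < XX b v a i then (1 : ℝ) else 0) ≤
      2 * Real.exp (-(w / 78400)) := by
  classical
  have hmr : (0 : ℝ) < m := by exact_mod_cast hm0
  set r := Real.sqrt m with hr
  have hr0 : 0 < r := Real.sqrt_pos.2 hmr
  have hrr : r ^ 2 = m := Real.sq_sqrt hmr.le
  have hwr : (0 : ℝ) < w := by exact_mod_cast hw
  set θ := 1 / (560 * r) with hθ
  set BT : Finset (Finset (Fin (2 * w))) := univ.filter fun T => w ≤ T.card with hBT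
  have h1 : ∀ a, (if ∀ i, 0 < XX b v a i then (1 : ℝ) else 0) ≤
      ∑ T ∈ BT, 2 ^ T.card * ∏ i ∈ T, phi (5 / r * XX b v a i) +
        Real.exp (-(w / 39200)) * Real.exp (θ * ∑ i, XX b v a i) := by
    intro a
    have hn1 : ∀ T : Finset (Fin (2 * w)), 0 ≤ 2 ^ T.card * ∏ i ∈ T, phi (5 / r * XX b v a i) :=
      fun T => mul_nonneg (by positivity) (prod_nonneg fun i _ => phi_nonneg _)
    have hn2 : 0 ≤ ∑ T ∈ BT, 2 ^ T.card * ∏ i ∈ T, phi (5 / r * XX b v a i) :=
      sum_nonneg fun T _ => hn1 T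
    have hn3 : 0 ≤ Real.exp (-(w / 39200)) * Real.exp (θ * ∑ i, XX b v a i) := by positivity
    split_ifs with hpos
    · set T : Finset (Fin (2 * w)) := univ.filter fun i => XX b v a i ≤ r / 70 with hT
      by_cases hTw : w ≤ T.card
      · have h2 : 1 ≤ 2 ^ T.card * ∏ i ∈ T, phi (5 / r * XX b v a i) := by
          rw [← prod_const, ← prod_mul_distrib]
          have h3 : ∏ _i ∈ T, (1 : ℝ) ≤ ∏ i ∈ T, 2 * phi (5 / r * XX b v a i) := by
            refine prod_le_prod (fun _ _ => by norm_num) fun i hi => ?_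
            have h4 := (mem_filter.1 hi).2
            have h5 := hpos i
            have h6 : |5 / r * XX b v a i| ≤ 1 / 14 := by
              rw [abs_of_pos (by positivity)]
              calc 5 / r * XX b v a i ≤ 5 / r * (r / 70) :=
                    mul_le_mul_of_nonneg_left h4 (by positivity)
                _ = 1 / 14 := by
                    field_simp
                    norm_num
            have := phi_ge h6
            linarith
          simpa using h3
        have h3 : 2 ^ T.card * ∏ i ∈ T, phi (5 / r * XX b v a i) ≤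
            ∑ T ∈ BT, 2 ^ T.card * ∏ i ∈ T, phi (5 / r * XX b v a i) :=
          single_le_sum (f := fun T : Finset (Fin (2 * w)) =>
            2 ^ T.card * ∏ i ∈ T, phi (5 / r * XX b v a i)) (fun T _ => hn1 T)
            (mem_filter.2 ⟨mem_univ _, hTw⟩)
        linarith
      · have h2 : w ≤ (univ.filter fun i => ¬ XX b v a i ≤ r / 70).card := by
          have h3 : T.card +
              (univ.filter fun i => ¬ XX b v a i ≤ r / 70).card = 2 * w := by
            rw [hT, card_filter_add_card_filter_not, card_univ, Fintype.card_fin]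
          omega
        have h3 : (w : ℝ) * (r / 70) ≤ ∑ i, XX b v a i := by
          calc (w : ℝ) * (r / 70) ≤ (univ.filter fun i => ¬ XX b v a i ≤ r / 70).card * (r / 70) := by
                apply mul_le_mul_of_nonneg_right _ (by positivity)
                exact_mod_cast h2
            _ = ∑ _i ∈ univ.filter (fun i => ¬ XX b v a i ≤ r / 70), r / 70 := by
                rw [sum_const, nsmul_eq_mul]
            _ ≤ ∑ i ∈ univ.filter (fun i => ¬ XX b v a i ≤ r / 70), XX b v a i :=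
                sum_le_sum fun i hi => (not_le.1 (mem_filter.1 hi).2).le
            _ ≤ ∑ i, XX b v a i :=
                sum_le_sum_of_subset_of_nonneg (filter_subset _ _) fun i _ _ => (hpos i).le
        have h4 : (w : ℝ) / 39200 ≤ θ * ∑ i, XX b v a i := by
          calc (w : ℝ) / 39200 = θ * (w * (r / 70)) := by
                rw [hθ]
                field_simp
                norm_num
            _ ≤ _ := mul_le_mul_of_nonneg_left h3 (by positivity)
        have h5 : 1 ≤ Real.exp (-(w / 39200)) * Real.exp (θ * ∑ i, XX b v a i) := by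
          rw [← Real.exp_add]
          apply Real.one_le_exp
          linarith
        linarith
    · linarith
  refine (mn_mono h1).trans ?_
  rw [mn_add (fun a => ∑ T ∈ BT, 2 ^ T.card * ∏ i ∈ T, phi (5 / r * XX b v a i))
    (fun a => Real.exp (-(w / 39200)) * Real.exp (θ * ∑ i, XX b v a i)),
    mn_sum BT (fun T a => 2 ^ T.card * ∏ i ∈ T, phi (5 / r * XX b v a i)),
    mn_mul_left]
  have h2 : ∑ T ∈ BT, mn (fun a => 2 ^ T.card * ∏ i ∈ T, phi (5 / r * XX b v a i)) ≤
      (4 / 7 : ℝ) ^ w := by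
    have h3 : ∀ T ∈ BT, mn (fun a => 2 ^ T.card * ∏ i ∈ T, phi (5 / r * XX b v a i)) ≤
        (1 / 7 : ℝ) ^ w := by
      intro T hT
      rw [mn_mul_left]
      calc 2 ^ T.card * mn (fun a => ∏ i ∈ T, phi (5 / r * XX b v a i)) ≤
            2 ^ T.card * (1 / 14) ^ T.card :=
            mul_le_mul_of_nonneg_left (small_ball hg hm0 hm T) (by positivity)
        _ = (1 / 7) ^ T.card := by
            rw [← mul_pow]
            norm_num
        _ ≤ (1 / 7) ^ w := pow_le_pow_of_le_one (by norm_num) (by norm_num) (mem_filter.1 hT).2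
    calc ∑ T ∈ BT, mn (fun a => 2 ^ T.card * ∏ i ∈ T, phi (5 / r * XX b v a i)) ≤
          ∑ _T ∈ BT, (1 / 7 : ℝ) ^ w := sum_le_sum h3
      _ = BT.card * (1 / 7) ^ w := by rw [sum_const, nsmul_eq_mul]
      _ ≤ 4 ^ w * (1 / 7) ^ w := by
          apply mul_le_mul_of_nonneg_right _ (by positivity)
          have h4 : BT.card ≤ 4 ^ w := by
            refine (card_le_univ _).trans ?_
            rw [Fintype.card_finset, Fintype.card_fin, pow_mul]
            norm_num
          exact_mod_cast h4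
      _ = (4 / 7) ^ w := by
          rw [← mul_pow]
          norm_num
  have h3 : Real.exp (-(w / 39200)) * mn (fun a => Real.exp (θ * ∑ i, XX b v a i)) ≤
      Real.exp (-(w / 78400)) := by
    calc Real.exp (-(w / 39200)) * mn (fun a => Real.exp (θ * ∑ i, XX b v a i)) ≤
          Real.exp (-(w / 39200)) * Real.exp (2 * θ ^ 2 * m * ((2 * w : ℕ) : ℝ)) :=
          mul_le_mul_of_nonneg_left (exp_sum_le hg θ) (Real.exp_pos _).le
      _ = Real.exp (-(w / 78400)) := by
          rw [← Real.exp_add]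
          congr 1
          have h4 : θ ^ 2 * m = 1 / 313600 := by
            rw [hθ, div_pow, mul_pow, hrr]
            field_simp
            norm_num
          push_cast
          calc -((w : ℝ) / 39200) + 2 * θ ^ 2 * m * (2 * w) =
                -((w : ℝ) / 39200) + 4 * (θ ^ 2 * m) * w := by ring
            _ = _ := by
                rw [h4]
                ring
  have h4 : (4 / 7 : ℝ) ^ w ≤ Real.exp (-(w / 78400)) := by
    have h5 : (4 / 7 : ℝ) ≤ Real.exp (-(1 / 78400)) := by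
      have := Real.add_one_le_exp (-(1 / 78400) : ℝ)
      linarith
    calc (4 / 7 : ℝ) ^ w ≤ Real.exp (-(1 / 78400)) ^ w := pow_le_pow_left₀ (by norm_num) h5 w
      _ = _ := by
          rw [← Real.exp_nat_mul]
          congr 1
          ring
  linarith

end Run7.h64.SS
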