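import Pool.Agent.Run7.h64.SS.Orth

/-!
# Two-colourings of pairs of sign rank `O(n ^ 2)` without homogeneous sets
-/

set_option autoImplicit false

namespace Run7.h64.SS

open Finset

theorem XX_not {m h M : ℕ} (b : Fin m → Fin M → Bool) (v : Fin h → Fin M) (a : Fin m → Bool)
    (i : Fin h) : XX b v (fun l => !a l) i = - XX b v a i := by
  unfold XX
  rw [← sum_neg_distrib]
  refine sum_congr rfl fun l _ => ?_
  rw [sgn_not]
  ring

theorem orthant_neg {m w M : ℕ} {b : Fin m → Fin M → Bool} {v : Fin (2 * w) → Fin M}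
    (hg : GoodAt b v) (hw : 0 < w) (hm0 : 0 < m) (hm : 150 * ((2 * w : ℕ) : ℝ) ≤ Real.sqrt m) :
    mn (fun a => if ∀ i, XX b v a i < 0 then (1 : ℝ) else 0) ≤
      2 * Real.exp (-(w / 78400)) := by
  classical
  let e : (Fin m → Bool) ≃ (Fin m → Bool) :=
    ⟨fun a l => !a l, fun a l => !a l, fun a => by ext l; simp, fun a => by ext l; simp⟩
  refine le_trans (le_of_eq ?_) (orthant hg hw hm0 hm)
  rw [← mn_equiv e]
  congr 1
  ext a
  have h1 : (∀ i, XX b v (e a) i < 0) ↔ ∀ i, 0 < XX b v a i := by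
    apply forall_congr'
    intro i
    show XX b v (fun l => !a l) i < 0 ↔ _
    rw [XX_not, neg_lt_zero]
  simp only [h1]

theorem odd_sum_ne_zero {m : ℕ} (hm : Odd m) (s t : Fin m → Bool) :
    ∑ l, sgn (s l) * sgn (t l) ≠ 0 := by
  intro h0
  have h1 : ∀ l, sgn (s l) * sgn (t l) = 1 - 2 * (if s l = t l then 0 else 1) := by
    intro l
    cases s l <;> cases t l <;> norm_num [sgn]
  simp_rw [h1] at h0
  rw [sum_sub_distrib, ← mul_sum, sum_const, card_univ, Fintype.card_fin, nsmul_eq_mul,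
    mul_one] at h0
  have h2 : ∑ l, (if s l = t l then (0 : ℝ) else 1) =
      ((univ.filter fun l => ¬ s l = t l).card : ℝ) := by
    rw [← sum_boole]
    refine sum_congr rfl fun l _ => ?_
    by_cases h : s l = t l <;> simp [h]
  rw [h2] at h0
  have h3 : (m : ℝ) = ((2 * (univ.filter fun l => ¬ s l = t l).card : ℕ) : ℝ) := by
    push_cast
    linarith
  have h4 : m = 2 * (univ.filter fun l => ¬ s l = t l).card := by exact_mod_cast h3
  obtain ⟨k, hk⟩ := hm
  omega

theorem exists_ab (e : ℕ) (he : 1 ≤ e) :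
    ∃ (b : Fin (90000 * (250000 * e) ^ 2 + 1) → Fin (2 ^ e) → Bool)
      (a : Fin (2 ^ e) → Fin (90000 * (250000 * e) ^ 2 + 1) → Bool),
      ∀ u v : Fin (2 * (250000 * e)) → Fin (2 ^ e), Function.Injective u →
        Function.Injective v →
        ¬ (∀ i j, 0 < XX b v (a (u i)) j) ∧ ¬ (∀ i j, XX b v (a (u i)) j < 0) := by
  classical
  set w := 250000 * e with hw
  set m := 90000 * w ^ 2 + 1 with hm
  set M := 2 ^ e with hM
  set h := 2 * w with hh
  have hw1 : 250000 ≤ w := by omega
  have hew : e ≤ w := by omega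
  have hwr : (250000 : ℝ) ≤ w := by exact_mod_cast hw1
  have her : (1 : ℝ) ≤ e := by exact_mod_cast he
  have hewr : (e : ℝ) ≤ w := by exact_mod_cast hew
  have hwe : (w : ℝ) = 250000 * e := by rw [hw]; push_cast; ring
  have hl2 := Real.log_two_lt_d9
  have hl2' := Real.log_two_gt_d9
  have h2exp : ∀ k : ℕ, (2 : ℝ) ^ k = Real.exp (k * Real.log 2) := by
    intro k
    rw [mul_comm, Real.exp_mul, Real.exp_log (by norm_num), Real.rpow_natCast]
  have hmr : (m : ℝ) = 90000 * (w : ℝ) ^ 2 + 1 := by rw [hm]; push_cast; ring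
  have hMr : (M : ℝ) = 2 ^ e := by rw [hM]; push_cast; ring
  -- the vectors `b`
  have hcond : (M : ℝ) ^ h * 61 ^ h * Real.exp (-(m / 24)) + (M : ℝ) ^ h * Real.exp (-(m / 24)) <
      1 := by
    have h1 : (M : ℝ) ^ h * 61 ^ h ≤ 2 ^ (7 * e * h) := by
      rw [← mul_pow, pow_mul 2 (7 * e) h]
      apply pow_le_pow_left₀ (by positivity)
      calc (M : ℝ) * 61 ≤ 2 ^ e * 2 ^ 6 := by
            rw [hMr]
            apply mul_le_mul_of_nonneg_left _ (by positivity)
            norm_num
        _ = 2 ^ (e + 6) := by rw [← pow_add]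
        _ ≤ 2 ^ (7 * e) := pow_le_pow_right₀ (by norm_num) (by omega)
    have h2 : (M : ℝ) ^ h ≤ (M : ℝ) ^ h * 61 ^ h := by
      apply le_mul_of_one_le_right (by positivity)
      exact one_le_pow₀ (by norm_num)
    have h3 : (M : ℝ) ^ h * 61 ^ h * Real.exp (-(m / 24)) + (M : ℝ) ^ h * Real.exp (-(m / 24)) ≤
        2 * (2 ^ (7 * e * h) * Real.exp (-(m / 24))) := by
      have h4 : 0 < Real.exp (-((m : ℝ) / 24)) := Real.exp_pos _
      nlinarith
    refine lt_of_le_of_lt h3 ?_
    have h4 : (2 : ℝ) * (2 ^ (7 * e * h) * Real.exp (-(m / 24))) =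
        Real.exp (((1 + 7 * e * h : ℕ) : ℝ) * Real.log 2 + -(m / 24)) := by
      rw [Real.exp_add, ← h2exp, pow_add, pow_one]
      ring
    rw [h4, Real.exp_lt_one_iff]
    push_cast
    rw [hmr, hh]
    push_cast
    have h5 : (1 + 7 * (e : ℝ) * (2 * w)) ≤ 15 * w ^ 2 := by nlinarith
    have h6 : (1 + 7 * (e : ℝ) * (2 * w)) * Real.log 2 ≤ 15 * w ^ 2 * 1 := by
      apply mul_le_mul h5 (by linarith) (by linarith) (by positivity)
    nlinarith
  obtain ⟨b, hb⟩ := exists_good m h M (by omega) hcond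
  have hm0 : 0 < m := by omega
  have hsq : 150 * ((2 * w : ℕ) : ℝ) ≤ Real.sqrt m := by
    apply Real.le_sqrt_of_sq_le
    rw [hmr]
    push_cast
    nlinarith
  -- the vectors `a`
  let I1 : (Fin h → Fin M) → (Fin h → Fin M) → (Fin M → Fin m → Bool) → ℝ := fun u v a =>
    if Function.Injective u ∧ Function.Injective v ∧ ∀ i j, 0 < XX b v (a (u i)) j then 1 else 0
  let I2 : (Fin h → Fin M) → (Fin h → Fin M) → (Fin M → Fin m → Bool) → ℝ := fun u v a =>
    if Function.Injective u ∧ Function.Injective v ∧ ∀ i j, XX b v (a (u i)) j < 0 then 1 else 0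
  set β : ℝ := (2 * Real.exp (-(w / 78400))) ^ h with hβ
  have hβ0 : 0 ≤ β := by positivity
  have hI1 : ∀ u v, mn (I1 u v) ≤ β := by
    intro u v
    by_cases huv : Function.Injective u ∧ Function.Injective v
    · have h1 : I1 u v = fun a => ∏ i, (fun s => if ∀ j, 0 < XX b v s j then (1 : ℝ) else 0)
          (a (u i)) := by
        ext a
        simp only [I1, huv.1, huv.2, true_and]
        by_cases hc : ∀ i j, 0 < XX b v (a (u i)) j
        · rw [if_pos hc, prod_eq_one]
          intro i _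
          rw [if_pos (hc i)]
        · rw [if_neg hc]
          push Not at hc
          obtain ⟨i, j, hij⟩ := hc
          symm
          apply prod_eq_zero (mem_univ i)
          rw [if_neg]
          intro hcon
          exact absurd (hcon j) (not_lt.2 hij)
      rw [h1, mn_prod_inj u huv.1 (fun s => if ∀ j, 0 < XX b v s j then (1 : ℝ) else 0),
        Fintype.card_fin]
      apply pow_le_pow_left₀ (mn_nonneg fun s => by split_ifs <;> norm_num)
      exact orthant (hb v huv.2) (by omega) hm0 hsq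
    · have h1 : I1 u v = fun _ => 0 := by
        ext a
        simp only [I1]
        rw [if_neg]
        rintro ⟨h1, h2, _⟩
        exact huv ⟨h1, h2⟩
      rw [h1, mn_const]
      exact hβ0
  have hI2 : ∀ u v, mn (I2 u v) ≤ β := by
    intro u v
    by_cases huv : Function.Injective u ∧ Function.Injective v
    · have h1 : I2 u v = fun a => ∏ i, (fun s => if ∀ j, XX b v s j < 0 then (1 : ℝ) else 0)
          (a (u i)) := by
        ext a
        simp only [I2, huv.1, huv.2, true_and]
        by_cases hc : ∀ i j, XX b v (a (u i)) j < 0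
        · rw [if_pos hc, prod_eq_one]
          intro i _
          rw [if_pos (hc i)]
        · rw [if_neg hc]
          push Not at hc
          obtain ⟨i, j, hij⟩ := hc
          symm
          apply prod_eq_zero (mem_univ i)
          rw [if_neg]
          intro hcon
          exact absurd (hcon j) (not_lt.2 hij)
      rw [h1, mn_prod_inj u huv.1 (fun s => if ∀ j, XX b v s j < 0 then (1 : ℝ) else 0),
        Fintype.card_fin]
      apply pow_le_pow_left₀ (mn_nonneg fun s => by split_ifs <;> norm_num)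
      exact orthant_neg (hb v huv.2) (by omega) hm0 hsq
    · have h1 : I2 u v = fun _ => 0 := by
        ext a
        simp only [I2]
        rw [if_neg]
        rintro ⟨h1, h2, _⟩
        exact huv ⟨h1, h2⟩
      rw [h1, mn_const]
      exact hβ0
  have hcount : (M : ℝ) ^ h * (M : ℝ) ^ h * (2 * β) < 1 := by
    have h1 : (M : ℝ) ^ h * (M : ℝ) ^ h * (2 * β) =
        Real.exp (((1 + 2 * e * h + h : ℕ) : ℝ) * Real.log 2 + h * (-(w / 78400))) := by
      rw [hβ, mul_pow, Real.exp_add, ← h2exp, ← Real.exp_nat_mul, hMr]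
      rw [pow_add, pow_add, pow_one, ← pow_mul]
      ring
    rw [h1, Real.exp_lt_one_iff]
    rw [hh]
    push_cast
    have h2 : (1 + 2 * (e : ℝ) * (2 * w) + 2 * w) ≤ 7 * (e * w) := by nlinarith
    have h3 : (1 + 2 * (e : ℝ) * (2 * w) + 2 * w) * Real.log 2 ≤ 7 * (e * w) * 0.7 :=
      mul_le_mul h2 (by linarith) (by linarith) (by positivity)
    have h4 : 2 * (w : ℝ) * (-(w / 78400)) = -((250000 / 39200) * (e * w)) := by
      rw [hwe]
      ring
    rw [h4]
    have h5 : 0 < (e : ℝ) * w := by positivity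
    linarith
  have hF : mn (fun a => ∑ u, ∑ v, (I1 u v a + I2 u v a)) < 1 := by
    have h1 : mn (fun a => ∑ u, ∑ v, (I1 u v a + I2 u v a)) =
        ∑ u, ∑ v, (mn (I1 u v) + mn (I2 u v)) := by
      rw [mn_sum univ (fun u a => ∑ v, (I1 u v a + I2 u v a))]
      refine sum_congr rfl fun u _ => ?_
      rw [mn_sum univ (fun v a => (I1 u v a + I2 u v a))]
      exact sum_congr rfl fun v _ => mn_add _ _
    rw [h1]
    refine lt_of_le_of_lt ?_ hcount
    calc ∑ u, ∑ v, (mn (I1 u v) + mn (I2 u v)) ≤ ∑ _u : Fin h → Fin M, ∑ _v : Fin h → Fin M,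
          (2 * β) := sum_le_sum fun u _ => sum_le_sum fun v _ => by
            have := hI1 u v
            have := hI2 u v
            linarith
      _ = _ := by
          simp only [sum_const, card_univ, Fintype.card_fun, Fintype.card_fin, nsmul_eq_mul]
          push_cast
          ring
  have hne : Nonempty (Fin M → Fin m → Bool) := ⟨fun _ _ => true⟩
  obtain ⟨a, ha⟩ := exists_lt_of_mn hF
  have hn1 : ∀ u v, 0 ≤ I1 u v a := fun u v => by
    simp only [I1]
    split_ifs <;> norm_num
  have hn2 : ∀ u v, 0 ≤ I2 u v a := fun u v => by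
    simp only [I2]
    split_ifs <;> norm_num
  have hle : ∀ u v, I1 u v a + I2 u v a ≤ ∑ u, ∑ v, (I1 u v a + I2 u v a) := fun u v =>
    (single_le_sum (f := fun v => I1 u v a + I2 u v a)
      (fun v _ => add_nonneg (hn1 u v) (hn2 u v)) (mem_univ v)).trans
      (single_le_sum (f := fun u => ∑ v, (I1 u v a + I2 u v a))
        (fun u _ => sum_nonneg fun v _ => add_nonneg (hn1 u v) (hn2 u v)) (mem_univ u))
  refine ⟨b, a, fun u v hu hv => ⟨fun hcon => ?_, fun hcon => ?_⟩⟩
  · have h1 : I1 u v a = 1 := by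
      simp only [I1]
      rw [if_pos ⟨hu, hv, hcon⟩]
    have := hle u v
    have := hn2 u v
    linarith
  · have h1 : I2 u v a = 1 := by
      simp only [I2]
      rw [if_pos ⟨hu, hv, hcon⟩]
    have := hle u v
    have := hn1 u v
    linarith

/-- Two-colourings of pairs given by scalar products in dimension `O(e ^ 2)`. -/
theorem pairs_exists (e : ℕ) (he : 1 ≤ e) :
    ∃ a b : ℕ → Fin (90000 * (250000 * e) ^ 2 + 1) → ℝ,
      (∀ u v, ∑ l, a u l * b v l ≠ 0) ∧
      ∀ E ⊆ range (2 ^ e), E.card = 1000000 * e →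
        ¬ (∀ u ∈ E, ∀ v ∈ E, u < v → 0 < ∑ l, a u l * b v l) ∧
        ¬ (∀ u ∈ E, ∀ v ∈ E, u < v → ∑ l, a u l * b v l < 0) := by
  classical
  obtain ⟨b, a, hab⟩ := exists_ab e he
  have hodd : Odd (90000 * (250000 * e) ^ 2 + 1) := ⟨45000 * (250000 * e) ^ 2, by ring⟩
  let A : ℕ → Fin (90000 * (250000 * e) ^ 2 + 1) → Bool := fun u =>
    if hu : u < 2 ^ e then a ⟨u, hu⟩ else fun _ => true
  let B : ℕ → Fin (90000 * (250000 * e) ^ 2 + 1) → Bool := fun u =>
    if hu : u < 2 ^ e then fun l => b l ⟨u, hu⟩ else fun _ => true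
  refine ⟨fun u l => sgn (A u l), fun u l => sgn (B u l), fun u v => odd_sum_ne_zero hodd _ _, ?_⟩
  intro E hE hEc
  have hEc' : E.card = 2 * (250000 * e) + 2 * (250000 * e) := by omega
  set x := E.orderEmbOfFin hEc' with hx
  have hxE : ∀ i, x i ∈ E := fun i => E.orderEmbOfFin_mem hEc' i
  have hxM : ∀ i, x i < 2 ^ e := fun i => mem_range.1 (hE (hxE i))
  let u : Fin (2 * (250000 * e)) → Fin (2 ^ e) := fun i => ⟨x (Fin.castAdd _ i), hxM _⟩
  let v : Fin (2 * (250000 * e)) → Fin (2 ^ e) := fun i => ⟨x (Fin.natAdd _ i), hxM _⟩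
  have hu : Function.Injective u := by
    intro i j hij
    have h1 : x (Fin.castAdd _ i) = x (Fin.castAdd _ j) := congrArg Fin.val hij
    exact Fin.castAdd_injective _ _ (x.injective h1)
  have hv : Function.Injective v := by
    intro i j hij
    have h1 : x (Fin.natAdd _ i) = x (Fin.natAdd _ j) := congrArg Fin.val hij
    exact Fin.natAdd_injective _ _ (x.injective h1)
  have hlt : ∀ i j, x (Fin.castAdd (2 * (250000 * e)) i) < x (Fin.natAdd (2 * (250000 * e)) j) := by
    intro i j
    apply x.strictMono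
    rw [Fin.lt_def]
    simp only [Fin.val_castAdd, Fin.val_natAdd]
    omega
  have hval : ∀ i j, ∑ l, sgn (A (x (Fin.castAdd (2 * (250000 * e)) i)) l) *
      sgn (B (x (Fin.natAdd (2 * (250000 * e)) j)) l) = XX b v (a (u i)) j := by
    intro i j
    unfold XX
    refine sum_congr rfl fun l _ => ?_
    simp only [A, B, u, v]
    rw [dif_pos (hxM _), dif_pos (hxM _)]
  obtain ⟨h1, h2⟩ := hab u v hu hv
  refine ⟨fun hcon => h1 fun i j => ?_, fun hcon => h2 fun i j => ?_⟩
  · rw [← hval]
    exact hcon _ (hxE _) _ (hxE _) (hlt i j)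
  · rw [← hval]
    exact hcon _ (hxE _) _ (hxE _) (hlt i j)

end Run7.h64.SS
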