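import Pool.Agent.Run7.h64.SS.Thr
import Pool.Agent.Run7.h64.SS.Form

/-!
# Links of stepped up colourings
-/

set_option autoImplicit false

namespace Run7.h64.SS

open Finset Pool.Agent.TH138.NF Pool.Agent.Y424.LK Run7.h64.SR

/-- all links are determined by relations of bounded sign rank -/
def LinksSR {κ J : Type} (c : Finset ℕ → κ) (R N : ℕ) (k : J → ℕ) : Prop :=
  ∀ S ⊆ range N, S.card = R → ∃ Q : J → ℕ → ℕ → Prop,
    (∀ j, SignRankLE (Q j) (range N \ S) (k j)) ∧
    ∀ x ∈ range N \ S, ∀ y ∈ range N \ S, x < y → ∀ x' ∈ range N \ S, ∀ y' ∈ range N \ S, x' < y' →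
      (∀ j, Q j x y ↔ Q j x' y') → c (insert x (insert y S)) = c (insert x' (insert y' S))

theorem LL_pair {S : Finset ℕ} {x y : ℕ} (hxy : x < y) (hx : x ∉ S) (hy : y ∉ S) (g : ℕ → ℕ)
    (hg : ∀ x, Near S x (g x)) : LL (insert x (insert y S)) =
      insert (if hh x y < hh (g y) y then hh x y else hh (g y) y)
        (insert (hh (g x) x) (LL S)) := by
  rw [Finset.insert_comm, ← LL_insert hx (hg x)]
  have hy' : y ∉ insert x S := by
    rw [mem_insert, not_or]
    exact ⟨hxy.ne', hy⟩
  split_ifs with h
  · exact LL_insert hy' (near_insert_lt (hg y) h)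
  · exact LL_insert hy' (near_insert_ge (hg y) (not_lt.1 h))

theorem LL_sub {S : Finset ℕ} {N : ℕ} (hN : 1 ≤ N) (hS : S ⊆ range (2 ^ N)) :
    LL S ⊆ range N := by
  intro d hd
  obtain ⟨p, hp, q, hq, -, rfl⟩ := mem_LL.1 hd
  rw [mem_range]
  exact hh_bound hN (mem_range.1 (hS hp)) (mem_range.1 (hS hq))

theorem signRank_true (V : Finset ℕ) {D : ℕ} (hD : 0 < D) : SignRankLE (fun _ _ => True) V D := by
  refine ⟨fun _ _ => 1, fun _ _ => 1, fun x _ y _ _ => ⟨fun _ => ?_, fun h => absurd trivial h⟩⟩
  simp only [mul_one, sum_const, card_univ, Fintype.card_fin, nsmul_eq_mul]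
  exact_mod_cast hD

theorem links_step {κ κ' J : Type} {c : Finset ℕ → κ} {c' : Finset ℕ → κ'} {R N : ℕ}
    {k : J → ℕ} (hN : 1 ≤ N) (hs : Steps c c' (R + 1) N) (hc : LinksSR c R N k) :
    LinksSR c' (R + 1) (2 ^ N) (Sum.elim (fun j => 4 * k j + 1) (fun _ : PI (R + 1) => 2)) := by
  classical
  intro S hS hSc
  have hSne : S.Nonempty := card_pos.1 (by omega)
  choose g hgS hgm using fun p => exists_near hSne p
  have hg : ∀ x, Near S x (g x) := fun x => ⟨hgS x, hgm x⟩
  have hLLN : LL S ⊆ range N := LL_sub hN hS
  have hLLc : (LL S).card ≤ R := LL_card hSc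
  -- the relations which come from the links of `c`
  have hmain : ∃ Q' : J → ℕ → ℕ → Prop, (∀ j, SignRankLE (Q' j) (range (2 ^ N) \ S) (4 * k j + 1)) ∧
      ∀ x ∈ range (2 ^ N) \ S, ∀ y ∈ range (2 ^ N) \ S, x < y →
      ∀ x' ∈ range (2 ^ N) \ S, ∀ y' ∈ range (2 ^ N) \ S, x' < y' →
      (∀ j, Q' j x y ↔ Q' j x' y') → (LL (insert x (insert y S))).card = R + 2 →
      (LL (insert x' (insert y' S))).card = R + 2 →
      c (LL (insert x (insert y S))) = c (LL (insert x' (insert y' S))) := by
    by_cases hR : (LL S).card = R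
    · obtain ⟨Q, hQ, hQc⟩ := hc (LL S) hLLN hR
      choose Q' hQ' hQ'' using fun j => form_step hN hS g hg (hQ j)
      refine ⟨Q', hQ', ?_⟩
      have key : ∀ x ∈ range (2 ^ N) \ S, ∀ y ∈ range (2 ^ N) \ S, x < y →
          (LL (insert x (insert y S))).card = R + 2 → ∃ u ∈ range N \ LL S, ∃ v ∈ range N \ LL S,
            u < v ∧ LL (insert x (insert y S)) = insert u (insert v (LL S)) ∧
            ∀ j, Q' j x y ↔ Q j u v := by
        intro x hx y hy hxy hcard
        have hx' := mem_sdiff.1 hx
        have hy' := mem_sdiff.1 hy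
        have h1 := LL_pair hxy hx'.2 hy'.2 g hg
        set r := if hh x y < hh (g y) y then hh x y else hh (g y) y with hr
        set u := hh (g x) x with hu
        have h2 : u ∉ LL S ∧ r ∉ insert u (LL S) := by
          rw [h1] at hcard
          have h3 : (insert r (insert u (LL S))).card ≤ (insert u (LL S)).card + 1 :=
            card_insert_le _ _
          have h4 : (insert u (LL S)).card ≤ (LL S).card + 1 := card_insert_le _ _
          constructor
          · intro h5
            rw [insert_eq_of_mem h5] at h3 hcard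
            omega
          · intro h5
            rw [insert_eq_of_mem h5] at hcard
            omega
        have h3 : r ≠ u ∧ r ∉ LL S := by
          have := h2.2
          rw [mem_insert, not_or] at this
          exact this
        have hsub : insert x (insert y S) ⊆ range (2 ^ N) :=
          insert_subset hx'.1 (insert_subset hy'.1 hS)
        have h4 : LL (insert x (insert y S)) ⊆ range N := LL_sub hN hsub
        have hrN : r ∈ range N := h4 (by rw [h1]; exact mem_insert_self _ _)
        have huN : u ∈ range N := h4 (by rw [h1]; exact mem_insert_of_mem (mem_insert_self _ _))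
        have huV : u ∈ range N \ LL S := mem_sdiff.2 ⟨huN, h2.1⟩
        have hrV : r ∈ range N \ LL S := mem_sdiff.2 ⟨hrN, h3.2⟩
        have hform := fun j => hQ'' j x hx y hy hxy r hr h3.1.symm huV hrV
        rcases lt_or_gt_of_ne h3.1 with h | h
        · refine ⟨r, hrV, u, huV, h, h1, fun j => ?_⟩
          rw [hform j, min_eq_right h.le, max_eq_left h.le]
        · refine ⟨u, huV, r, hrV, h, ?_, fun j => ?_⟩
          · rw [h1, Finset.insert_comm]
          · rw [hform j, min_eq_left h.le, max_eq_right h.le]
      intro x hx y hy hxy x' hx' y' hy' hxy' hQQ h1 h2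
      obtain ⟨u, hu, v, hv, huv, e1, e2⟩ := key x hx y hy hxy h1
      obtain ⟨u', hu', v', hv', huv', e1', e2'⟩ := key x' hx' y' hy' hxy' h2
      rw [e1, e1']
      refine hQc u hu v hv huv u' hu' v' hv' huv' fun j => ?_
      rw [← e2 j, ← e2' j]
      exact hQQ j
    · refine ⟨fun _ _ _ => True, fun j => signRank_true _ (by omega), ?_⟩
      intro x hx y hy hxy x' _ y' _ _ _ h1 _
      exfalso
      have h2 := LL_pair hxy (mem_sdiff.1 hx).2 (mem_sdiff.1 hy).2 g hg
      rw [h2] at h1
      have h3 := card_insert_le (if hh x y < hh (g y) y then hh x y else hh (g y) y)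
        (insert (hh (g x) x) (LL S))
      have h4 := card_insert_le (hh (g x) x) (LL S)
      omega
  obtain ⟨Q', hQ', hQ''⟩ := hmain
  refine ⟨Sum.elim Q' (PR (R + 1) S), ?_, ?_⟩
  · rintro (j | q)
    · exact hQ' j
    · exact (thr_PR (R + 1) S _ q).signRank
  · intro x hx y hy hxy x' hx' y' hy' hxy' hall
    have hx1 := mem_sdiff.1 hx
    have hy1 := mem_sdiff.1 hy
    have hx1' := mem_sdiff.1 hx'
    have hy1' := mem_sdiff.1 hy'
    have hpat := pat_of_PR hSc hxy hxy' hx1.2 hy1.2 hx1'.2 hy1'.2 (fun q => hall (Sum.inr q))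
    have hcA : ∀ {x y : ℕ}, x < y → x ∉ S → y ∉ S → (insert x (insert y S)).card = R + 1 + 2 := by
      intro x y hxy hx hy
      rw [card_insert_of_notMem, card_insert_of_notMem hy, hSc]
      rw [mem_insert, not_or]
      exact ⟨hxy.ne, hx⟩
    have c1 := hcA hxy hx1.2 hy1.2
    have c2 := hcA hxy' hx1'.2 hy1'.2
    set X := srt (R + 1 + 2) (insert x (insert y S)) with hX
    set X' := srt (R + 1 + 2) (insert x' (insert y' S)) with hX'
    have m1 : StrictMono X := srt_mono c1
    have m2 : StrictMono X' := srt_mono c2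
    have i1 : univ.image X = insert x (insert y S) := srt_image c1
    have i2 : univ.image X' = insert x' (insert y' S) := srt_image c2
    have b1 : ∀ i, X i < 2 ^ N := by
      intro i
      have h1 : X i ∈ insert x (insert y S) := by
        rw [← i1]; exact mem_image_of_mem _ (mem_univ _)
      exact mem_range.1 (insert_subset hx1.1 (insert_subset hy1.1 hS) h1)
    have b2 : ∀ i, X' i < 2 ^ N := by
      intro i
      have h1 : X' i ∈ insert x' (insert y' S) := by
        rw [← i2]; exact mem_image_of_mem _ (mem_univ _)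
      exact mem_range.1 (insert_subset hx1'.1 (insert_subset hy1'.1 hS) h1)
    rw [← i1, ← i2]
    refine hs X X' m1 m2 b1 b2 hpat fun hmon => ?_
    have l1 : univ.image (D X) = LL (insert x (insert y S)) := by rw [← i1]; exact image_D m1
    have l2 : univ.image (D X') = LL (insert x' (insert y' S)) := by rw [← i2]; exact image_D m2
    have inj1 : Function.Injective (D X) := by
      rcases hmon with h | h
      · exact h.injective
      · exact h.injective
    have inj2 : Function.Injective (D X') := by
      rcases hmon with h | h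
      · exact (hpat.mono h).injective
      · exact (hpat.anti h).injective
    have k1 : (LL (insert x (insert y S))).card = R + 2 := by
      rw [← l1, card_image_of_injective _ inj1, card_univ, Fintype.card_fin]
    have k2 : (LL (insert x' (insert y' S))).card = R + 2 := by
      rw [← l2, card_image_of_injective _ inj2, card_univ, Fintype.card_fin]
    rw [l1, l2]
    exact hQ'' x hx y hy hxy x' hx' y' hy' hxy' (fun j => hall (Sum.inl j)) k1 k2

end Run7.h64.SS
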