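import Pool.Agent.Run7.h64.SS.Dist
import Pool.Agent.Run7.h64.SR.Defs

/-!
# Order patterns of distances are given by thresholds
-/

set_option autoImplicit false

namespace Run7.h64.SS

open Finset Pool.Agent.TH138.NF Pool.Agent.Y424.LK Run7.h64.SR

/-- threshold relations on the pairs `x < y` in `V` -/
def Thr (V : Finset ℕ) (R : ℕ → ℕ → Prop) : Prop :=
  ∃ f g : ℕ → ℕ, (∀ x ∈ V, ∀ y ∈ V, x < y → (R x y ↔ f x < g y)) ∨
    (∀ x ∈ V, ∀ y ∈ V, x < y → (R x y ↔ ¬ f x < g y))

theorem Thr.congr {V : Finset ℕ} {R R' : ℕ → ℕ → Prop} (h : Thr V R)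
    (hR : ∀ x ∈ V, ∀ y ∈ V, x < y → (R' x y ↔ R x y)) : Thr V R' := by
  obtain ⟨f, g, h | h⟩ := h
  · exact ⟨f, g, Or.inl fun x hx y hy hxy => (hR x hx y hy hxy).trans (h x hx y hy hxy)⟩
  · exact ⟨f, g, Or.inr fun x hx y hy hxy => (hR x hx y hy hxy).trans (h x hx y hy hxy)⟩

theorem thr_lt (V : Finset ℕ) (f g : ℕ → ℕ) : Thr V (fun x y => f x < g y) :=
  ⟨f, g, Or.inl fun _ _ _ _ _ => Iff.rfl⟩

theorem thr_gt (V : Finset ℕ) (f g : ℕ → ℕ) : Thr V (fun x y => g y < f x) :=
  ⟨f, fun y => g y + 1, Or.inr fun x _ y _ _ => by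
    show g y < f x ↔ ¬ f x < g y + 1
    omega⟩

theorem thr_not_lt (V : Finset ℕ) (f g : ℕ → ℕ) : Thr V (fun x y => ¬ f x < g y) :=
  ⟨f, g, Or.inr fun _ _ _ _ _ => Iff.rfl⟩

theorem thr_left (V : Finset ℕ) (P : ℕ → Prop) : Thr V (fun x _ => P x) := by
  classical
  refine ⟨fun x => if P x then 0 else 1, fun _ => 1, Or.inl fun x _ y _ _ => ?_⟩
  by_cases h : P x <;> simp [h]

theorem thr_right (V : Finset ℕ) (P : ℕ → Prop) : Thr V (fun _ y => P y) := by
  classical
  refine ⟨fun _ => 0, fun y => if P y then 1 else 0, Or.inl fun x _ y _ _ => ?_⟩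
  by_cases h : P y <;> simp [h]

theorem Thr.signRank {V : Finset ℕ} {R : ℕ → ℕ → Prop} (h : Thr V R) : SignRankLE R V 2 := by
  obtain ⟨f, g, h | h⟩ := h
  · refine ⟨fun x => ![1, -(f x : ℝ) - 1 / 2], fun y => ![(g y : ℝ), 1], ?_⟩
    intro x hx y hy hxy
    simp only [Fin.sum_univ_two, Matrix.cons_val_zero, Matrix.cons_val_one]
    have h1 := h x hx y hy hxy
    constructor
    · intro hR
      have h2 : (f x : ℝ) + 1 ≤ g y := by exact_mod_cast h1.1 hR
      linarith
    · intro hR
      have h2 : (g y : ℝ) ≤ f x := by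
        exact_mod_cast not_lt.1 (fun h3 => hR (h1.2 h3))
      linarith
  · refine ⟨fun x => ![-1, (f x : ℝ) + 1 / 2], fun y => ![(g y : ℝ), 1], ?_⟩
    intro x hx y hy hxy
    simp only [Fin.sum_univ_two, Matrix.cons_val_zero, Matrix.cons_val_one]
    have h1 := h x hx y hy hxy
    constructor
    · intro hR
      have h2 : (g y : ℝ) ≤ f x := by exact_mod_cast not_lt.1 (h1.1 hR)
      linarith
    · intro hR
      have h2 : (f x : ℝ) + 1 ≤ g y := by
        by_contra h3
        apply hR
        rw [h1]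
        intro h4
        exact h3 (by exact_mod_cast h4)
      linarith

/-- the points, not sorted -/
noncomputable def pt (R : ℕ) (S : Finset ℕ) (x y : ℕ) : Fin (R + 2) → ℕ :=
  Fin.cons x (Fin.cons y (srt R S))

theorem pt_zero (R : ℕ) (S : Finset ℕ) (x y : ℕ) : pt R S x y 0 = x := rfl
theorem pt_one (R : ℕ) (S : Finset ℕ) (x y : ℕ) : pt R S x y 1 = y := rfl
theorem pt_succ (R : ℕ) (S : Finset ℕ) (x y : ℕ) (i : Fin R) :
    pt R S x y i.succ.succ = srt R S i := rfl

theorem pt_image {R : ℕ} {S : Finset ℕ} (hS : S.card = R) (x y : ℕ) :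
    univ.image (pt R S x y) = insert x (insert y S) := by
  ext z
  rw [mem_image, mem_insert, mem_insert]
  constructor
  · rintro ⟨i, -, rfl⟩
    refine Fin.cases ?_ (fun i => ?_) i
    · left; rfl
    · refine Fin.cases ?_ (fun i => ?_) i
      · right; left; rfl
      · right; right
        rw [pt_succ]
        have := srt_image hS
        have h2 : srt R S i ∈ univ.image (srt R S) := mem_image_of_mem _ (mem_univ _)
        rwa [this] at h2
  · rintro (rfl | rfl | hz)
    · exact ⟨0, mem_univ _, rfl⟩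
    · exact ⟨1, mem_univ _, rfl⟩
    · rw [← srt_image hS] at hz
      obtain ⟨i, -, rfl⟩ := mem_image.1 hz
      exact ⟨i.succ.succ, mem_univ _, rfl⟩

/-- the kinds of distances -/
inductive Kind (R : ℕ) (S : Finset ℕ) (F : ℕ → ℕ → ℕ) : Prop
  | cst (m : ℕ) (h : ∀ x y, F x y = m)
  | left (z : ℕ) (h : ∀ x y, F x y = hh x z)
  | right (z : ℕ) (h : ∀ x y, F x y = hh y z)
  | both (h : ∀ x y, F x y = hh x y)

theorem kind (R : ℕ) (S : Finset ℕ) (i j : Fin (R + 2)) (hij : i ≠ j) :
    Kind R S (fun x y => hh (pt R S x y i) (pt R S x y j)) := by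
  revert hij
  refine Fin.cases ?_ (fun i => ?_) i <;> refine Fin.cases ?_ (fun j => ?_) j
  · intro h; exact absurd rfl h
  · refine Fin.cases ?_ (fun j => ?_) j
    · intro _; exact .both fun x y => rfl
    · intro _; exact .left (srt R S j) fun x y => rfl
  · refine Fin.cases ?_ (fun i => ?_) i
    · intro _; exact .both fun x y => hh_comm _ _
    · intro _; exact .left (srt R S i) fun x y => hh_comm _ _
  · refine Fin.cases ?_ (fun i => ?_) i <;> refine Fin.cases ?_ (fun j => ?_) j
    · intro h; exact absurd rfl h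
    · intro _; exact .right (srt R S j) fun x y => rfl
    · intro _; exact .right (srt R S i) fun x y => hh_comm _ _
    · intro _; exact .cst (hh (srt R S i) (srt R S j)) fun x y => rfl

theorem hd_lt_iff {x y m : ℕ} (h : x < y) : hd x y < m ↔ ¬ x / 2 ^ m < y / 2 ^ m := by
  have h1 := hd_spec h m
  have h2 : x / 2 ^ m ≤ y / 2 ^ m := Nat.div_le_div_right h.le
  omega

theorem thr_kind {R : ℕ} {S : Finset ℕ} {F G : ℕ → ℕ → ℕ} (V : Finset ℕ) (hF : Kind R S F)
    (hG : Kind R S G) : Thr V (fun x y => F x y < G x y) := by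
  cases hF with
  | cst m hF =>
    cases hG with
    | cst m' hG =>
      refine (thr_left V (fun _ => m < m')).congr fun x _ y _ _ => ?_
      rw [hF, hG]
    | left z hG =>
      refine (thr_left V (fun x => m < hh x z)).congr fun x _ y _ _ => ?_
      rw [hF, hG]
    | right z hG =>
      refine (thr_right V (fun y => m < hh y z)).congr fun x _ y _ _ => ?_
      rw [hF, hG]
    | both hG =>
      refine (thr_lt V (fun x => x / 2 ^ (m + 1)) (fun y => y / 2 ^ (m + 1))).congr
        fun x _ y _ hxy => ?_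
      rw [hF, hG, hh_lt hxy]
      have h1 := hd_lt_iff (m := m + 1) hxy
      omega
  | left z hF =>
    cases hG with
    | cst m' hG =>
      refine (thr_left V (fun x => hh x z < m')).congr fun x _ y _ _ => ?_
      rw [hF, hG]
    | left z' hG =>
      refine (thr_left V (fun x => hh x z < hh x z')).congr fun x _ y _ _ => ?_
      rw [hF, hG]
    | right z' hG =>
      refine (thr_lt V (fun x => hh x z) (fun y => hh y z')).congr fun x _ y _ _ => ?_
      rw [hF, hG]
    | both hG =>
      refine (thr_lt V (fun x => hh x z) (fun y => hh y z)).congr fun x _ y _ _ => ?_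
      rw [hF, hG]
      have h2 := ultra y x z
      have h3 := ultra x z y
      rw [hh_comm y x] at h2
      rw [hh_comm z y] at h3
      omega
  | right z hF =>
    cases hG with
    | cst m' hG =>
      refine (thr_right V (fun y => hh y z < m')).congr fun x _ y _ _ => ?_
      rw [hF, hG]
    | left z' hG =>
      refine (thr_gt V (fun x => hh x z') (fun y => hh y z)).congr fun x _ y _ _ => ?_
      rw [hF, hG]
    | right z' hG =>
      refine (thr_right V (fun y => hh y z < hh y z')).congr fun x _ y _ _ => ?_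
      rw [hF, hG]
    | both hG =>
      refine (thr_gt V (fun x => hh x z) (fun y => hh y z)).congr fun x _ y _ _ => ?_
      rw [hF, hG]
      have h2 := ultra x y z
      have h3 := ultra x z y
      rw [hh_comm z y] at h3
      omega
  | both hF =>
    cases hG with
    | cst m hG =>
      refine (thr_not_lt V (fun x => x / 2 ^ m) (fun y => y / 2 ^ m)).congr fun x _ y _ hxy => ?_
      rw [hF, hG, hh_lt hxy]
      exact hd_lt_iff hxy
    | left z hG =>
      refine (thr_not_lt V (wz z) (wz z)).congr fun x _ y _ hxy => ?_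
      rw [hF, hG]
      exact wz_lt hxy
    | right z hG =>
      refine (thr_not_lt V (wz z) (wz z)).congr fun x _ y _ hxy => ?_
      rw [hF, hG]
      exact wz_lt' hxy
    | both hG =>
      refine (thr_left V (fun _ => False)).congr fun x _ y _ _ => ?_
      rw [hF, hG]
      simp

theorem thr_order (R : ℕ) (S V : Finset ℕ) (i j : Fin (R + 2)) :
    Thr V (fun x y => pt R S x y i < pt R S x y j) := by
  refine Fin.cases ?_ (fun i => ?_) i <;> refine Fin.cases ?_ (fun j => ?_) j
  · exact (thr_left V (fun _ => False)).congr fun x _ y _ _ => by simp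
  · refine Fin.cases ?_ (fun j => ?_) j
    · exact (thr_left V (fun _ => True)).congr fun x _ y _ hxy =>
        ⟨fun _ => trivial, fun _ => hxy⟩
    · exact thr_left V (fun x => x < srt R S j)
  · refine Fin.cases ?_ (fun i => ?_) i
    · exact (thr_left V (fun _ => False)).congr fun x _ y _ hxy =>
        ⟨fun h => absurd h (not_lt.2 hxy.le), fun h => h.elim⟩
    · exact thr_left V (fun x => srt R S i < x)
  · refine Fin.cases ?_ (fun i => ?_) i <;> refine Fin.cases ?_ (fun j => ?_) j
    · exact (thr_left V (fun _ => False)).congr fun x _ y _ _ => by simp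
    · exact thr_right V (fun y => y < srt R S j)
    · exact thr_right V (fun y => srt R S i < y)
    · exact thr_left V (fun _ => srt R S i < srt R S j)

/-- the index type of the relations which describe the pattern -/
abbrev PI (R : ℕ) : Type :=
  (Fin (R + 2) × Fin (R + 2)) ⊕ ((Fin (R + 2) × Fin (R + 2)) × (Fin (R + 2) × Fin (R + 2)))

/-- these relations -/
noncomputable def PR (R : ℕ) (S : Finset ℕ) (q : PI R) (x y : ℕ) : Prop :=
  Sum.elim (fun p => pt R S x y p.1 < pt R S x y p.2)
    (fun p => p.1.1 ≠ p.1.2 ∧ p.2.1 ≠ p.2.2 ∧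
      hh (pt R S x y p.1.1) (pt R S x y p.1.2) < hh (pt R S x y p.2.1) (pt R S x y p.2.2)) q

theorem thr_PR (R : ℕ) (S V : Finset ℕ) (q : PI R) : Thr V (PR R S q) := by
  rcases q with ⟨i, j⟩ | ⟨⟨i, j⟩, ⟨k, l⟩⟩
  · exact thr_order R S V i j
  · by_cases hij : i ≠ j
    · by_cases hkl : k ≠ l
      · refine (thr_kind V (kind R S i j hij) (kind R S k l hkl)).congr fun x _ y _ _ => ?_
        show (i ≠ j ∧ k ≠ l ∧ _) ↔ _
        exact ⟨fun h => h.2.2, fun h => ⟨hij, hkl, h⟩⟩
      · exact (thr_left V (fun _ => False)).congr fun x _ y _ _ =>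
          ⟨fun h => hkl h.2.1, fun h => h.elim⟩
    · exact (thr_left V (fun _ => False)).congr fun x _ y _ _ =>
        ⟨fun h => hij h.1, fun h => h.elim⟩

/-- The relations determine the pattern. -/
theorem pat_of_PR {R : ℕ} {S : Finset ℕ} (hS : S.card = R) {x y x' y' : ℕ} (hxy : x < y)
    (hxy' : x' < y') (hx : x ∉ S) (hy : y ∉ S) (hx' : x' ∉ S) (hy' : y' ∉ S)
    (h : ∀ q, PR R S q x y ↔ PR R S q x' y') :
    Pat (D (srt (R + 2) (insert x (insert y S)))) (D (srt (R + 2) (insert x' (insert y' S)))) := by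
  have hc : ∀ {x y : ℕ}, x < y → x ∉ S → y ∉ S → (insert x (insert y S)).card = R + 2 := by
    intro x y hxy hx hy
    rw [card_insert_of_notMem, card_insert_of_notMem hy, hS]
    rw [mem_insert, not_or]
    exact ⟨hxy.ne, hx⟩
  set X := srt (R + 2) (insert x (insert y S)) with hX
  have hXm : StrictMono X := srt_mono (hc hxy hx hy)
  have hXi : univ.image X = insert x (insert y S) := srt_image (hc hxy hx hy)
  -- the permutation
  have hinj : Function.Injective (pt R S x y) := by
    have h1 : (univ.image (pt R S x y)).card = R + 2 := by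
      rw [pt_image hS]
      exact hc hxy hx hy
    have h2 : (univ.image (pt R S x y)).card = (univ : Finset (Fin (R + 2))).card := by
      rw [h1, card_univ, Fintype.card_fin]
    have h3 := card_image_iff.1 h2
    exact fun a b hab => h3 (by simp) (by simp) hab
  have hex : ∀ k, ∃ i, pt R S x y i = X k := by
    intro k
    have h1 : X k ∈ univ.image (pt R S x y) := by
      rw [pt_image hS, ← hXi]
      exact mem_image_of_mem _ (mem_univ _)
    obtain ⟨i, -, hi⟩ := mem_image.1 h1
    exact ⟨i, hi⟩
  choose π hπ using hex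
  have hord : ∀ i j, pt R S x y i < pt R S x y j ↔ pt R S x' y' i < pt R S x' y' j :=
    fun i j => h (Sum.inl (i, j))
  have hX' : (fun k => pt R S x' y' (π k)) = srt (R + 2) (insert x' (insert y' S)) := by
    apply srt_unique
    · intro k l hkl
      show pt R S x' y' (π k) < pt R S x' y' (π l)
      rw [← hord, hπ, hπ]
      exact hXm hkl
    · have hπs : Function.Surjective π := by
        have hπi : Function.Injective π := by
          intro k l hkl
          apply hXm.injective
          rw [← hπ, ← hπ, hkl]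
        exact Finite.surjective_of_injective hπi
      rw [← pt_image hS x' y']
      ext z
      simp only [mem_image, mem_univ, true_and]
      constructor
      · rintro ⟨k, hk⟩
        exact ⟨π k, hk⟩
      · rintro ⟨i, hi⟩
        obtain ⟨k, rfl⟩ := hπs i
        exact ⟨k, hi⟩
  have hπne : ∀ k : Fin (R + 1), π k.castSucc ≠ π k.succ := by
    intro k hk
    have h1 := hXm (Fin.castSucc_lt_succ (i := k))
    rw [← hπ, ← hπ, hk] at h1
    exact lt_irrefl _ h1
  have hD : ∀ k, D X k = hh (pt R S x y (π k.castSucc)) (pt R S x y (π k.succ)) := by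
    intro k
    rw [hπ, hπ, hh_lt (hXm (Fin.castSucc_lt_succ))]
    rfl
  have hD' : ∀ k, D (srt (R + 2) (insert x' (insert y' S))) k =
      hh (pt R S x' y' (π k.castSucc)) (pt R S x' y' (π k.succ)) := by
    intro k
    have hm := srt_mono (hc hxy' hx' hy')
    rw [show D (srt (R + 2) (insert x' (insert y' S))) k =
      hd (srt (R + 2) (insert x' (insert y' S)) k.castSucc)
        (srt (R + 2) (insert x' (insert y' S)) k.succ) from rfl,
      ← hh_lt (hm (Fin.castSucc_lt_succ)), ← hX']
  intro k l
  rw [hD, hD, hD', hD']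
  have h1 := h (Sum.inr ((π k.castSucc, π k.succ), (π l.castSucc, π l.succ)))
  simp only [PR, Sum.elim_inr] at h1
  constructor
  · intro h2
    exact (h1.1 ⟨hπne k, hπne l, h2⟩).2.2
  · intro h2
    exact (h1.2 ⟨hπne k, hπne l, h2⟩).2.2

end Run7.h64.SS
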