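import Pool.Agent.Run7.h64.SS.Step
import Pool.Agent.Run7.h64.SS.Pairs
import Pool.Agent.Y424.LK.Lower

/-!
# Colourings of full height with links of small sign rank
-/

set_option autoImplicit false

namespace Run7.h64.SS

open Finset Pool.Agent.TH138.NF Pool.Agent.Y424.LK Run7.h64.SR

theorem prod_five {J : Type} [Fintype J] (k : J → ℕ) (hk : ∀ j, 1 ≤ k j) :
    ∏ j, (4 * k j + 1) ≤ 5 ^ Fintype.card J * ∏ j, k j := by
  calc ∏ j, (4 * k j + 1) ≤ ∏ j, (5 * k j) := prod_le_prod' fun j _ => by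
        have := hk j
        omega
    _ = 5 ^ Fintype.card J * ∏ j, k j := by rw [prod_mul_distrib, prod_const, card_univ]

/-- The protocols. -/
theorem tower_sr (s : ℕ) : ∃ (J : Type) (_ : Fintype J) (kk : ℕ → J → ℕ) (C : ℕ), 1 ≤ C ∧
    (∀ D, 1 ≤ D → ∏ j, kk D j ≤ C * D) ∧ (∀ D j, 1 ≤ kk D j) ∧
    ∀ (M n D : ℕ) (G : SimpleGraph (Fin M)), 1 ≤ M → 2 ≤ n →
      LinksSR (colG G) 0 M (fun _ : Unit => D) →
      (∀ E : Finset ℕ, E.card = n → (∀ a ∈ E, a < M) → ∀ u : Bool,
        ¬ ∀ a ∈ E, ∀ b ∈ E, a < b → adjN G a b = u) →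
      ∃ P : Protocol (Bool × Bool) (s + 2),
        (∃ n', 2 ≤ n' ∧ n' ≤ 2 ^ s * (n + 1 + s) ∧
          ∀ S ⊆ range (NN M s), S.card = n' → ¬ Hom P S) ∧
        LinksSR (colour P (false, false)) (s + 1) (NN M s) (kk D) := by
  classical
  induction s with
  | zero =>
    refine ⟨Unit ⊕ PI 1, inferInstance, fun D => Sum.elim (fun _ => 4 * D + 1) (fun _ => 2),
      5 * 2 ^ Fintype.card (PI 1), Nat.succ_le_of_lt (by positivity), ?_, ?_, ?_⟩
    · intro D hD
      rw [Fintype.prod_sum_type]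
      simp only [Sum.elim_inl, Sum.elim_inr, univ_unique, prod_const, card_singleton, pow_one,
        card_univ]
      calc (4 * D + 1) * 2 ^ Fintype.card (PI 1) ≤ (5 * D) * 2 ^ Fintype.card (PI 1) :=
            Nat.mul_le_mul_right _ (by omega)
        _ = _ := by ring
    · rintro D (j | j)
      · simp only [Sum.elim_inl]
        omega
      · simp only [Sum.elim_inr]
        omega
    · intro M n D G hM hn hG hhom
      refine ⟨base (adjN G) M, ⟨n + 1, by omega, by omega, ?_⟩, ?_⟩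
      · exact base_hom (adjN G) M M n Nat.lt_two_pow_self.le hn hhom
      · exact links_step hM (steps_base G (j := M) Nat.lt_two_pow_self.le) hG
  | succ s ih =>
    obtain ⟨J, _, kk, C, hC, hprod, hkk, ih⟩ := ih
    refine ⟨J ⊕ PI (s + 2), inferInstance,
      fun D => Sum.elim (fun j => 4 * kk D j + 1) (fun _ => 2),
      5 ^ Fintype.card J * C * 2 ^ Fintype.card (PI (s + 2)),
      Nat.mul_pos (Nat.mul_pos (by positivity) hC) (by positivity), ?_, ?_, ?_⟩
    · intro D hD
      rw [Fintype.prod_sum_type]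
      simp only [Sum.elim_inl, Sum.elim_inr, prod_const, card_univ]
      calc (∏ j, (4 * kk D j + 1)) * 2 ^ Fintype.card (PI (s + 2)) ≤
            (5 ^ Fintype.card J * (C * D)) * 2 ^ Fintype.card (PI (s + 2)) :=
            Nat.mul_le_mul_right _ ((prod_five (kk D) (hkk D)).trans
              (Nat.mul_le_mul_left _ (hprod D hD)))
        _ = _ := by ring
    · rintro D (j | j)
      · simp only [Sum.elim_inl]
        omega
      · simp only [Sum.elim_inr]
        omega
    · intro M n D G hM hn hG hhom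
      obtain ⟨P, ⟨n', hn2, hn', hP⟩, hL⟩ := ih M n D G hM hn hG hhom
      refine ⟨P.step, ⟨2 * n' + s, by omega, ?_, step_lower P (NN M s) n' hn2 hP⟩, ?_⟩
      · have h1 : s ≤ 2 ^ s := Nat.lt_two_pow_self.le
        calc 2 * n' + s ≤ 2 * (2 ^ s * (n + 1 + s)) + 2 ^ s := by omega
          _ ≤ 2 ^ (s + 1) * (n + 1 + (s + 1)) := by
            rw [pow_succ]
            nlinarith
      · exact links_step (NN_pos M s) (steps_step P (NN M s)) hL

/-- The graph given by scalar products. -/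
noncomputable def vecGraph (M : ℕ) {m : ℕ} (a b : ℕ → Fin m → ℝ) : SimpleGraph (Fin M) where
  Adj x y := x ≠ y ∧ 0 < ∑ l, a (min (x : ℕ) y) l * b (max (x : ℕ) y) l
  symm := ⟨fun x y h => ⟨h.1.symm, by rw [min_comm, max_comm]; exact h.2⟩⟩
  loopless := ⟨fun x h => h.1 rfl⟩

theorem adj_vecGraph {M m : ℕ} (a b : ℕ → Fin m → ℝ) {u v : ℕ} (huv : u < v) (hv : v < M) :
    adjN (vecGraph M a b) u v = true ↔ 0 < ∑ l, a u l * b v l := by
  classical
  unfold adjN
  rw [decide_eq_true_eq]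
  constructor
  · rintro ⟨h1, h2, h3⟩
    have h4 : 0 < ∑ l, a (min u v) l * b (max u v) l := h3.2
    rwa [min_eq_left huv.le, max_eq_right huv.le] at h4
  · intro h
    refine ⟨huv.trans hv, hv, ?_, ?_⟩
    · intro h1
      exact huv.ne (Fin.mk.inj_iff.1 h1)
    · show 0 < ∑ l, a (min u v) l * b (max u v) l
      rw [min_eq_left huv.le, max_eq_right huv.le]
      exact h

/-- The graph. -/
theorem exists_graph (e : ℕ) (he : 1 ≤ e) : ∃ G : SimpleGraph (Fin (2 ^ e)),
    SignRankLE (fun x y => adjN G x y = true) (range (2 ^ e)) (90000 * (250000 * e) ^ 2 + 1) ∧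
    (∀ E : Finset ℕ, E.card = 1000000 * e → (∀ a ∈ E, a < 2 ^ e) → ∀ u : Bool,
        ¬ ∀ a ∈ E, ∀ b ∈ E, a < b → adjN G a b = u) := by
  classical
  obtain ⟨a, b, hne, hab⟩ := pairs_exists e he
  refine ⟨vecGraph (2 ^ e) a b, ⟨a, b, ?_⟩, ?_⟩
  · intro x hx y hy hxy
    have h1 := adj_vecGraph a b hxy (mem_range.1 hy)
    refine ⟨fun h => h1.1 h, fun h => ?_⟩
    exact lt_of_le_of_ne (not_lt.1 fun h2 => h (h1.2 h2)) (hne x y)
  · intro E hE hEM u hu
    have h1 := hab E (fun x hx => mem_range.2 (hEM x hx)) hE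
    cases u with
    | true =>
      exact h1.1 fun x hx y hy hxy => (adj_vecGraph a b hxy (hEM y hy)).1 (hu x hx y hy hxy)
    | false =>
      refine h1.2 fun x hx y hy hxy => ?_
      refine lt_of_le_of_ne (not_lt.1 fun h2 => ?_) (hne x y)
      have h3 := (adj_vecGraph a b hxy (hEM y hy)).2 h2
      rw [hu x hx y hy hxy] at h3
      exact absurd h3 (by simp)

theorem linksSR_graph {M D : ℕ} (G : SimpleGraph (Fin M))
    (hG : SignRankLE (fun x y => adjN G x y = true) (range M) D) :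
    LinksSR (colG G) 0 M (fun _ : Unit => D) := by
  intro S hS hSc
  rw [card_eq_zero] at hSc
  subst hSc
  rw [sdiff_empty]
  refine ⟨fun _ x y => adjN G x y = true, fun _ => hG, ?_⟩
  intro x hx y hy hxy x' hx' y' hy' hxy' h
  have h1 := h ()
  have e1 : ∀ x y : ℕ, insert x (insert y (∅ : Finset ℕ)) = {x, y} := fun x y => by
    ext z
    simp
  rw [e1, e1, colG_pair, colG_pair, Bool.eq_iff_iff]
  exact h1

theorem signRank_mono_set {R : ℕ → ℕ → Prop} {V V' : Finset ℕ} {d : ℕ} (h : SignRankLE R V d)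
    (hV : V' ⊆ V) : SignRankLE R V' d := by
  obtain ⟨a, b, h⟩ := h
  exact ⟨a, b, fun x hx y hy hxy => h x (hV hx) y (hV hy) hxy⟩

/-- from `LinksSR` to `LinkSignRank` -/
theorem linkSignRank_of_linksSR {κ J : Type} [Fintype J] {c : Finset ℕ → κ} {R N : ℕ} {k : J → ℕ}
    (h : LinksSR c R N k) (U S : Finset ℕ) (hU : U ⊆ range N) (hS : S ⊆ range N)
    (hUS : Disjoint U S) (hSc : S.card = R) :
    LinkSignRank c U S (fun i : Fin (Fintype.card J) => k ((Fintype.equivFin J).symm i)) := by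
  classical
  obtain ⟨Q, hQ, hQc⟩ := h S hS hSc
  have hsub : U ⊆ range N \ S := by
    intro x hx
    exact mem_sdiff.2 ⟨hU hx, disjoint_left.1 hUS hx⟩
  refine ⟨fun i => Q ((Fintype.equivFin J).symm i), fun i => signRank_mono_set (hQ _) hsub, ?_⟩
  intro x hx y hy hxy x' hx' y' hy' hxy' h1
  refine hQc x (hsub hx) y (hsub hy) hxy x' (hsub hx') y' (hsub hy') hxy' fun j => ?_
  have := h1 (Fintype.equivFin J j)
  simpa using this

end Run7.h64.SS
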